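import Mathlib

/-!
# The asymptotic estimate
-/

set_option autoImplicit false

namespace Pool.Agent.L7h42.RH

open Filter Topology

/-- `log log log x / log log x` -/
noncomputable def LL (x : ℝ) : ℝ :=
  Real.log (Real.log (Real.log x)) / Real.log (Real.log x)

lemma tendsto_ll : Tendsto (fun n : ℕ => Real.log (Real.log (n : ℝ))) atTop atTop :=
  Real.tendsto_log_atTop.comp (Real.tendsto_log_atTop.comp tendsto_natCast_atTop_atTop)

lemma LL_anti {x y : ℝ} (hx : Real.exp 1 ≤ Real.log (Real.log x)) (hxy : x ≤ y) (hx1 : 1 < x) :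
    LL y ≤ LL x := by
  have h1 : 0 < Real.log x := Real.log_pos hx1
  have h2 : Real.log x ≤ Real.log y := Real.log_le_log (by linarith) hxy
  have h3 : Real.log (Real.log x) ≤ Real.log (Real.log y) := Real.log_le_log h1 h2
  exact Real.log_div_self_antitoneOn hx (hx.trans h3) h3

lemma LL_pow_log_tendsto {c : ℝ} (hc : 0 < c) :
    Tendsto (fun n : ℕ => (n : ℝ) ^ (c * LL n ^ 4)) atTop atTop := by
  have h1 : Tendsto (fun n : ℕ => Real.exp (Real.log (Real.log (n : ℝ))) /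
      Real.log (Real.log (n : ℝ)) ^ 4) atTop atTop :=
    (Real.tendsto_exp_div_pow_atTop 4).comp tendsto_ll
  have h2 : Tendsto (fun n : ℕ => Real.exp (c * (Real.exp (Real.log (Real.log (n : ℝ))) /
      Real.log (Real.log (n : ℝ)) ^ 4))) atTop atTop :=
    Real.tendsto_exp_atTop.comp (h1.const_mul_atTop hc)
  refine tendsto_atTop_mono' _ ?_ h2
  filter_upwards [tendsto_ll.eventually_ge_atTop (Real.exp 1), eventually_ge_atTop 2] with n hn hn2
  have hn2' : (2 : ℝ) ≤ n := by exact_mod_cast hn2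
  have hn0 : (0 : ℝ) < n := by linarith
  have hlog : 0 < Real.log n := Real.log_pos (by linarith)
  rw [Real.rpow_def_of_pos hn0, Real.exp_log hlog]
  apply Real.exp_le_exp.mpr
  have hy0 : 0 < Real.log (Real.log (n : ℝ)) := lt_of_lt_of_le (Real.exp_pos 1) hn
  have h3 : 1 ≤ Real.log (Real.log (Real.log (n : ℝ))) := by
    rw [Real.le_log_iff_exp_le hy0]; exact hn
  unfold LL
  rw [div_pow]
  have h4 : (1 : ℝ) ≤ Real.log (Real.log (Real.log (n : ℝ))) ^ 4 := one_le_pow₀ h3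
  calc c * (Real.log n / Real.log (Real.log n) ^ 4)
      = Real.log n * (c * (1 / Real.log (Real.log n) ^ 4)) := by ring
    _ ≤ Real.log n * (c * (Real.log (Real.log (Real.log (n : ℝ))) ^ 4 /
        Real.log (Real.log n) ^ 4)) := by gcongr

/-- from a lower bound for `f` to a lower bound for the expectation -/
theorem asym (f : ℕ → ℕ) {c0 : ℝ} (hc0 : 0 < c0)
    (hf : ∀ᶠ n : ℕ in atTop, Even n → (n : ℝ) ^ (1 + c0 * LL n ^ 4) ≤ f n) :
    ∃ c : ℝ, 0 < c ∧ ∀ᶠ n : ℕ in atTop, ∃ s : ℕ, Even s ∧ n ≤ s ^ 2 ∧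
      (n : ℝ) ^ (1 + c * LL n ^ 4) ≤
        1 / 84 * (n : ℝ) ^ (3 / 2 : ℝ) * (f s : ℝ) / (s : ℝ) ^ 2 := by
  refine ⟨c0 / 4, by positivity, ?_⟩
  -- the size `s`
  set S : ℕ → ℕ := fun n => 2 * ⌈Real.sqrt n / 2⌉₊ with hS
  have hS1 : ∀ n : ℕ, Real.sqrt n ≤ S n := by
    intro n
    have := Nat.le_ceil (Real.sqrt n / 2)
    rw [hS]; push_cast; linarith
  have hS2 : ∀ n : ℕ, (S n : ℝ) ≤ Real.sqrt n + 2 := by
    intro n
    have := (Nat.ceil_lt_add_one (a := Real.sqrt n / 2) (by positivity)).le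
    rw [hS]; push_cast; linarith
  have hStend : Tendsto S atTop atTop := by
    rw [← tendsto_natCast_atTop_iff (R := ℝ)]
    refine tendsto_atTop_mono hS1 ?_
    exact Real.tendsto_sqrt_atTop.comp tendsto_natCast_atTop_atTop
  have hll : Tendsto (fun n : ℕ => Real.log (Real.log (S n : ℝ))) atTop atTop :=
    tendsto_ll.comp hStend
  filter_upwards [hStend.eventually hf, hll.eventually_ge_atTop (Real.exp 1),
    (LL_pow_log_tendsto (c := c0 / 4) (by positivity)).eventually_ge_atTop 168,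
    eventually_ge_atTop 16] with n h1 h2 h3 hn
  have hn' : (16 : ℝ) ≤ n := by exact_mod_cast hn
  have hn0 : (0 : ℝ) < n := by linarith
  have hs4 : 4 ≤ Real.sqrt n := by
    rw [Real.le_sqrt (by norm_num) hn0.le]; linarith
  have hsq : Real.sqrt n * Real.sqrt n = n := Real.mul_self_sqrt hn0.le
  have heven : Even (S n) := ⟨⌈Real.sqrt n / 2⌉₊, by rw [hS]; ring⟩
  have h1' := h1 heven
  have hSn1 := hS1 n
  have hSn2 := hS2 n
  have hS0 : (0 : ℝ) < S n := by linarith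
  have hSn : (S n : ℝ) ≤ n := by nlinarith
  refine ⟨S n, heven, ?_, ?_⟩
  · have : (n : ℝ) ≤ (S n : ℝ) ^ 2 := by nlinarith
    exact_mod_cast this
  · have hLL : LL n ≤ LL (S n) := LL_anti h2 hSn (by linarith)
    have hLn0 : 0 ≤ LL n := by
      have ha : Real.exp 1 ≤ Real.log (Real.log (n : ℝ)) :=
        h2.trans (Real.log_le_log (Real.log_pos (by linarith))
          (Real.log_le_log hS0 hSn))
      have hb : 0 < Real.log (Real.log (n : ℝ)) := lt_of_lt_of_le (Real.exp_pos 1) ha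
      unfold LL
      apply div_nonneg _ hb.le
      apply Real.log_nonneg
      exact le_trans (by have := Real.add_one_le_exp (1 : ℝ); linarith) ha
    set δ : ℝ := c0 * LL n ^ 4 with hδ
    have hδ0 : 0 ≤ δ := by positivity
    have h4 : (S n : ℝ) ^ (1 + δ) ≤ f (S n) := by
      refine le_trans ?_ h1'
      apply Real.rpow_le_rpow_of_exponent_le (by linarith)
      have : LL n ^ 4 ≤ LL (S n) ^ 4 := pow_le_pow_left₀ hLn0 hLL 4
      have := mul_le_mul_of_nonneg_left this hc0.le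
      linarith
    have hS2n : (S n : ℝ) ≤ 2 * Real.sqrt n := by linarith
    have h5 : Real.sqrt n ^ δ ≤ (S n : ℝ) ^ δ := Real.rpow_le_rpow (by positivity) hSn1 hδ0
    have h6 : Real.sqrt n ^ δ = (n : ℝ) ^ (δ / 2) := by
      rw [Real.sqrt_eq_rpow, ← Real.rpow_mul hn0.le]; congr 1; ring
    have h7 : (n : ℝ) ^ (3 / 2 : ℝ) = n * Real.sqrt n := by
      rw [Real.sqrt_eq_rpow, ← Real.rpow_one_add' hn0.le (by norm_num)]; norm_num
    have h8 : (n : ℝ) ^ (1 + c0 / 4 * LL n ^ 4) * 168 ≤ (n : ℝ) ^ (1 + δ / 2) := by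
      have : (1 + δ / 2) = (1 + c0 / 4 * LL n ^ 4) + c0 / 4 * LL n ^ 4 := by rw [hδ]; ring
      rw [this, Real.rpow_add hn0 (1 + c0 / 4 * LL n ^ 4)]
      exact mul_le_mul_of_nonneg_left h3 (by positivity)
    have h9 : (n : ℝ) ^ (1 + δ / 2) = n * (n : ℝ) ^ (δ / 2) := by
      rw [Real.rpow_add hn0, Real.rpow_one]
    calc (n : ℝ) ^ (1 + c0 / 4 * LL n ^ 4) ≤ (n * (n : ℝ) ^ (δ / 2)) / 168 := by
          rw [le_div_iff₀ (by norm_num), ← h9]; exact h8
      _ ≤ (n * (S n : ℝ) ^ δ) / 168 := by rw [← h6]; gcongr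
      _ = 1 / 84 * (n * Real.sqrt n) * (S n : ℝ) ^ δ / (2 * Real.sqrt n) := by
          have : Real.sqrt n ≠ 0 := by positivity
          field_simp; norm_num
      _ ≤ 1 / 84 * (n * Real.sqrt n) * (S n : ℝ) ^ δ / (S n) := by gcongr
      _ = 1 / 84 * (n : ℝ) ^ (3 / 2 : ℝ) * (S n : ℝ) ^ (1 + δ) / (S n : ℝ) ^ 2 := by
          rw [h7, Real.rpow_add hS0, Real.rpow_one]
          field_simp
      _ ≤ _ := by gcongr

end Pool.Agent.L7h42.RH
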