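import Pool.Agent.L7h42.RH.Stm

/-!
# Double counting of the edges of the subsets
-/

set_option autoImplicit false

namespace Pool.Agent.L7h42.RH

open Finset Pool.Agent.TH124.KE

variable {P : Finset (ℝ × ℝ)}

lemma on_line (hP : GP P) {p q x : ℝ × ℝ} (hp : p ∈ P) (hq : q ∈ P) (hx : x ∈ P) (hpq : p ≠ q)
    (h : hh (sl p q) x = hh (sl p q) p) : x = p ∨ x = q := by
  by_contra hcon
  push Not at hcon
  have h1 : p.1 ≠ x.1 := fun h1 => hcon.1 (hP.inj p hp x hx h1).symm
  have h2 := (hh_eq h1 (sl p q)).mp h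
  exact hP.col p hp q hq x hx hpq hcon.1.symm hcon.2.symm h2.symm

/-- the points below and above the line through `p` and `q` -/
noncomputable def dn (P : Finset (ℝ × ℝ)) (p q : ℝ × ℝ) : Finset (ℝ × ℝ) :=
  {r ∈ P | hh (sl p q) r < hh (sl p q) p}

noncomputable def up (P : Finset (ℝ × ℝ)) (p q : ℝ × ℝ) : Finset (ℝ × ℝ) :=
  {r ∈ P | hh (sl p q) p < hh (sl p q) r}

lemma split4 (hP : GP P) {p q : ℝ × ℝ} (hp : p ∈ P) (hq : q ∈ P) (hpq : p.1 < q.1)
    {S : Finset (ℝ × ℝ)} (hS : S ⊆ P) (hpS : p ∈ S) (hqS : q ∈ S) :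
    #(dn S p q) + #(up S p q) + 2 = #S ∧ S = dn S p q ∪ up S p q ∪ {p, q} := by
  classical
  have hne : p ≠ q := by rintro rfl; exact lt_irrefl _ hpq
  have hqq : hh (sl p q) q = hh (sl p q) p := hh_sl hpq.ne
  have hu : S = dn S p q ∪ up S p q ∪ {p, q} := by
    ext x
    simp only [dn, up, mem_union, mem_filter, mem_insert, mem_singleton]
    constructor
    · intro hx
      rcases lt_trichotomy (hh (sl p q) x) (hh (sl p q) p) with h | h | h
      · exact Or.inl (Or.inl ⟨hx, h⟩)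
      · exact Or.inr (on_line hP hp hq (hS hx) hne h)
      · exact Or.inl (Or.inr ⟨hx, h⟩)
    · rintro ((h | h) | (rfl | rfl))
      · exact h.1
      · exact h.1
      · exact hpS
      · exact hqS
  refine ⟨?_, hu⟩
  conv_rhs => rw [hu]
  rw [card_union_of_disjoint, card_union_of_disjoint, card_pair hne]
  · rw [disjoint_left]
    intro x hx hx'
    simp only [dn, up, mem_filter] at hx hx'
    exact lt_asymm hx.2 hx'.2
  · rw [disjoint_left]
    intro x hx hx'
    simp only [dn, up, mem_union, mem_filter, mem_insert, mem_singleton] at hx hx'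
    rcases hx' with rfl | rfl
    · rcases hx with hx | hx <;> exact lt_irrefl _ hx.2
    · rw [hqq] at hx
      rcases hx with hx | hx <;> exact lt_irrefl _ hx.2

theorem s_AVG : S_AVG := by
  classical
  intro P hP m
  -- the pairs
  set E : Finset Seg := (P ×ˢ P).filter (fun e => e.1.1 < e.2.1) with hE
  have h1 : ∀ S ∈ powersetCard (2 * m + 2) P, #(kes S m) = ∑ e ∈ E, if KE S m e.1 e.2 then 1 else 0 := by
    intro S hS
    rw [mem_powersetCard] at hS
    rw [← Finset.sum_filter, ← Finset.card_eq_sum_ones]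
    congr 1
    ext e
    rw [mem_kes, mem_filter, hE, mem_filter, mem_product]
    constructor
    · intro h
      exact ⟨⟨⟨hS.1 h.1, hS.1 h.2.1⟩, h.2.2.1⟩, h⟩
    · intro h
      exact h.2
  rw [Finset.sum_congr rfl h1, Finset.sum_comm]
  have h2 : ∀ e ∈ E, (∑ S ∈ powersetCard (2 * m + 2) P, if KE S m e.1 e.2 then 1 else 0) ≤
      (bel P (sl e.1 e.2) e.1).choose m * (#P - 2 - bel P (sl e.1 e.2) e.1).choose m := by
    intro e he
    rw [hE, mem_filter, mem_product] at he
    obtain ⟨⟨hp, hq⟩, hlt⟩ := he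
    rw [← Finset.sum_filter, ← Finset.card_eq_sum_ones]
    have hPs := (split4 hP hp hq hlt (Subset.refl P) hp hq).1
    have hb : bel P (sl e.1 e.2) e.1 = #(dn P e.1 e.2) := rfl
    have hup : #P - 2 - bel P (sl e.1 e.2) e.1 = #(up P e.1 e.2) := by rw [hb]; omega
    rw [hup, hb, ← card_powersetCard, ← card_powersetCard, ← card_product]
    refine card_le_card_of_injOn (fun S => (dn S e.1 e.2, up S e.1 e.2)) ?_ ?_
    · intro S hS
      rw [mem_coe, mem_filter, mem_powersetCard] at hS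
      obtain ⟨⟨hS1, hS2⟩, hk⟩ := hS
      have hs := (split4 hP hp hq hlt hS1 hk.1 hk.2.1).1
      have hd : #(dn S e.1 e.2) = m := hk.2.2.2
      rw [mem_coe, mem_product, mem_powersetCard, mem_powersetCard]
      refine ⟨⟨filter_subset_filter _ hS1, hd⟩, ⟨filter_subset_filter _ hS1, ?_⟩⟩
      show #(up S e.1 e.2) = m
      omega
    · intro S hS T hT hST
      rw [mem_coe, mem_filter, mem_powersetCard] at hS hT
      obtain ⟨⟨hS1, hS2⟩, hkS⟩ := hS
      obtain ⟨⟨hT1, hT2⟩, hkT⟩ := hT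
      simp only [Prod.mk.injEq] at hST
      rw [(split4 hP hp hq hlt hS1 hkS.1 hkS.2.1).2, (split4 hP hp hq hlt hT1 hkT.1 hkT.2.1).2,
        hST.1, hST.2]
  refine (Finset.sum_le_sum h2).trans (le_of_eq ?_)
  have hmaps : ∀ e ∈ E, bel P (sl e.1 e.2) e.1 ∈ range (#P - 1) := by
    intro e he
    rw [hE, mem_filter, mem_product] at he
    obtain ⟨⟨hp, hq⟩, hlt⟩ := he
    have hPs := (split4 hP hp hq hlt (Subset.refl P) hp hq).1
    have hb : bel P (sl e.1 e.2) e.1 = #(dn P e.1 e.2) := rfl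
    rw [mem_range, hb]
    omega
  rw [← Finset.sum_fiberwise_of_maps_to hmaps]
  refine Finset.sum_congr rfl fun j _ => ?_
  have hfib : E.filter (fun e => bel P (sl e.1 e.2) e.1 = j) = kes P j := by
    ext e
    rw [mem_filter, hE, mem_filter, mem_product, mem_kes]
    constructor
    · rintro ⟨⟨⟨h1, h2⟩, h3⟩, h4⟩
      exact ⟨h1, h2, h3, h4⟩
    · rintro ⟨h1, h2, h3, h4⟩
      exact ⟨⟨⟨h1, h2⟩, h3⟩, h4⟩
  rw [← hfib, ← smul_eq_mul, ← Finset.sum_const]
  refine Finset.sum_congr rfl fun e he => ?_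
  rw [mem_filter] at he
  rw [he.2]

end Pool.Agent.L7h42.RH
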