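import Pool.Agent.L7h42.RH.Stm

/-!
# The cluster measure
-/

set_option autoImplicit false

namespace Pool.Agent.L7h42.RH

open Finset MeasureTheory Filter Topology
open Pool.Agent.W296.HL (cr Gen Hv IsBisector GeneralPosition Line)
open scoped ENNReal

lemma vol_line {a b c : ℝ} (hab : a ≠ 0 ∨ b ≠ 0) : volume (Line a b c) = 0 := by
  have hm : MeasurableSet (Line a b c) := by
    have : Measurable fun x : ℝ × ℝ => a * x.1 + b * x.2 := by fun_prop
    exact this (measurableSet_singleton c)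
  rw [Measure.volume_eq_prod, Measure.measure_prod_null hm]
  by_cases hb : b = 0
  · have ha : a ≠ 0 := hab.resolve_right (not_not.mpr hb)
    have h1 : ∀ᵐ x : ℝ, x ≠ c / a := by
      rw [ae_iff]
      simp
    filter_upwards [h1] with x hx
    have : Prod.mk x ⁻¹' Line a b c = ∅ := by
      rw [Set.eq_empty_iff_forall_notMem]
      intro y hy
      apply hx
      have hy' : a * x + b * y = c := hy
      rw [eq_div_iff ha, ← hy', hb]; ring
    rw [this]; simp
  · refine Eventually.of_forall fun x => ?_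
    have : Prod.mk x ⁻¹' Line a b c ⊆ {(c - a * x) / b} := by
      intro y hy
      have hy' : a * x + b * y = c := hy
      rw [Set.mem_singleton_iff, eq_div_iff hb, ← hy']; ring
    exact measure_mono_null this (by simp)

lemma cr_line (x y z : ℝ × ℝ) : cr x y z = 0 ↔
    z ∈ Line (-(y.2 - x.2)) (y.1 - x.1) (-(y.2 - x.2) * x.1 + (y.1 - x.1) * x.2) := by
  unfold cr
  simp only [Line, Set.mem_ofPred_eq]
  constructor <;> intro h <;> linarith

lemma exists_rad {P : Finset (ℝ × ℝ)} (hP : Gen P) : ∃ δ : ℝ, 0 < δ ∧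
    (∀ p ∈ P, ∀ q ∈ P, p ≠ q → Disjoint (Metric.ball p δ) (Metric.ball q δ)) ∧
    (∀ p ∈ P, ∀ q ∈ P, ∀ r ∈ P, 0 < cr p q r → ∀ x ∈ Metric.ball p δ, ∀ y ∈ Metric.ball q δ,
      ∀ z ∈ Metric.ball r δ, 0 < cr x y z) ∧
    (∀ p ∈ P, ∀ q ∈ P, ∀ r ∈ P, cr p q r < 0 → ∀ x ∈ Metric.ball p δ, ∀ y ∈ Metric.ball q δ,
      ∀ z ∈ Metric.ball r δ, cr x y z < 0) := by
  have h1 : ∀ᶠ δ in 𝓝[>] (0 : ℝ), ∀ p ∈ P, ∀ q ∈ P, p ≠ q →
      Disjoint (Metric.ball p δ) (Metric.ball q δ) := by
    rw [Finset.eventually_all]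
    intro p hp
    rw [Finset.eventually_all]
    intro q hq
    by_cases hpq : p = q
    · exact Eventually.of_forall fun δ h => absurd hpq h
    · have h2 : 0 < dist p q := dist_pos.mpr hpq
      filter_upwards [Ioo_mem_nhdsGT (show (0 : ℝ) < dist p q / 2 by linarith)] with δ hδ _
      apply Metric.ball_disjoint_ball
      linarith [hδ.2]
  have hc : Continuous fun w : (ℝ × ℝ) × (ℝ × ℝ) × (ℝ × ℝ) => cr w.1 w.2.1 w.2.2 := by
    unfold cr; fun_prop
  have key : ∀ (s : Set ℝ), IsOpen s → ∀ p q r : ℝ × ℝ, cr p q r ∈ s →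
      ∀ᶠ δ in 𝓝[>] (0 : ℝ), ∀ x ∈ Metric.ball p δ, ∀ y ∈ Metric.ball q δ,
        ∀ z ∈ Metric.ball r δ, cr x y z ∈ s := by
    intro s hs p q r h
    have ho : IsOpen ((fun w : (ℝ × ℝ) × (ℝ × ℝ) × (ℝ × ℝ) => cr w.1 w.2.1 w.2.2) ⁻¹' s) :=
      hs.preimage hc
    obtain ⟨ε, hε, hball⟩ := Metric.isOpen_iff.mp ho (p, q, r) h
    filter_upwards [Ioo_mem_nhdsGT hε] with δ hδ x hx y hy z hz
    have : (x, y, z) ∈ Metric.ball (p, q, r) ε := by
      rw [Metric.mem_ball] at hx hy hz ⊢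
      have e : dist (x, y, z) (p, q, r) = max (dist x p) (max (dist y q) (dist z r)) := rfl
      rw [e]
      exact max_lt (hx.trans hδ.2) (max_lt (hy.trans hδ.2) (hz.trans hδ.2))
    exact hball this
  have h2 : ∀ᶠ δ in 𝓝[>] (0 : ℝ), ∀ p ∈ P, ∀ q ∈ P, ∀ r ∈ P, 0 < cr p q r →
      ∀ x ∈ Metric.ball p δ, ∀ y ∈ Metric.ball q δ, ∀ z ∈ Metric.ball r δ, 0 < cr x y z := by
    rw [Finset.eventually_all]
    intro p hp
    rw [Finset.eventually_all]
    intro q hq
    rw [Finset.eventually_all]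
    intro r hr
    by_cases h : 0 < cr p q r
    · filter_upwards [key (Set.Ioi 0) isOpen_Ioi p q r h] with δ hδ _
      exact hδ
    · exact Eventually.of_forall fun δ h' => absurd h' h
  have h3 : ∀ᶠ δ in 𝓝[>] (0 : ℝ), ∀ p ∈ P, ∀ q ∈ P, ∀ r ∈ P, cr p q r < 0 →
      ∀ x ∈ Metric.ball p δ, ∀ y ∈ Metric.ball q δ, ∀ z ∈ Metric.ball r δ, cr x y z < 0 := by
    rw [Finset.eventually_all]
    intro p hp
    rw [Finset.eventually_all]
    intro q hq
    rw [Finset.eventually_all]
    intro r hr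
    by_cases h : cr p q r < 0
    · filter_upwards [key (Set.Iio 0) isOpen_Iio p q r h] with δ hδ _
      exact hδ
    · exact Eventually.of_forall fun δ h' => absurd h' h
  obtain ⟨δ, ⟨h4, h5, h6⟩, h7⟩ := ((h1.and (h2.and h3)).and self_mem_nhdsWithin).exists
  exact ⟨δ, h7, h4, h5, h6⟩

theorem s_CLU : S_CLU := by
  classical
  intro P hP hE hP2
  obtain ⟨δ, hδ, hd, hpos, hneg⟩ := exists_rad hP
  set s : ℕ := #P with hs
  have hs0 : (0 : ℝ) < s := by
    have : 0 < s := by omega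
    exact_mod_cast this
  set U : Set (ℝ × ℝ) := ⋃ p ∈ P, Metric.ball p δ with hU
  have hUm : MeasurableSet U := Finset.measurableSet_biUnion _ fun p _ => measurableSet_ball
  obtain ⟨v, hv⟩ : ∃ v : ℝ≥0∞, v = volume (Metric.ball (0 : ℝ × ℝ) δ) := ⟨_, rfl⟩
  have hball : ∀ p : ℝ × ℝ, volume (Metric.ball p δ) = v := by
    intro p
    rw [hv, Measure.addHaar_ball_center]
  have hv0 : v ≠ 0 := by rw [hv]; exact (Metric.measure_ball_pos _ _ hδ).ne'
  have hvt : v ≠ ⊤ := by rw [hv]; exact measure_ball_lt_top.ne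
  have hUv : volume U = s * v := by
    rw [hU, measure_biUnion_finset (fun p hp q hq hpq => hd p hp q hq hpq)
      (fun p _ => measurableSet_ball), Finset.sum_congr rfl (fun p _ => hball p),
      Finset.sum_const, nsmul_eq_mul]
  have hU0 : volume U ≠ 0 := by
    rw [hUv]
    refine mul_ne_zero ?_ hv0
    have : (s : ℝ≥0∞) ≠ 0 := by
      have : s ≠ 0 := by omega
      exact_mod_cast this
    exact this
  have hUt : volume U ≠ ⊤ := by
    rw [hUv]
    exact ENNReal.mul_ne_top (ENNReal.natCast_ne_top _) hvt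
  set μ : Measure (ℝ × ℝ) := ProbabilityTheory.cond volume U with hμ
  have hprob : IsProbabilityMeasure μ := ProbabilityTheory.cond_isProbabilityMeasure_of_finite hU0 hUt
  have hline : ∀ a b c : ℝ, (a ≠ 0 ∨ b ≠ 0) → μ (Line a b c) = 0 := by
    intro a b c hab
    exact ProbabilityTheory.cond_absolutelyContinuous (vol_line hab)
  have hDμ : ∀ p ∈ P, μ.real (Metric.ball p δ) = 1 / s := by
    intro p hp
    have h1 : U ∩ Metric.ball p δ = Metric.ball p δ := by
      rw [Set.inter_eq_right]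
      intro x hx
      rw [hU, Set.mem_iUnion₂]
      exact ⟨p, hp, hx⟩
    rw [Measure.real, hμ, ProbabilityTheory.cond_apply hUm, h1, hUv, hball,
      ENNReal.toReal_mul, ENNReal.toReal_inv, ENNReal.toReal_mul, ENNReal.toReal_natCast]
    have : v.toReal ≠ 0 := ENNReal.toReal_ne_zero.mpr ⟨hv0, hvt⟩
    field_simp
  have hunion : ∀ T : Finset (ℝ × ℝ), T ⊆ P → μ.real (⋃ r ∈ T, Metric.ball r δ) = #T / s := by
    intro T hT
    rw [measureReal_biUnion_finset (fun p hp q hq hpq => hd p (hT hp) q (hT hq) hpq)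
      (fun p _ => measurableSet_ball), Finset.sum_congr rfl (fun p hp => hDμ p (hT hp)),
      Finset.sum_const, nsmul_eq_mul]
    ring
  refine ⟨μ, fun p => Metric.ball p δ, ⟨hprob, hline⟩, fun p hp => ⟨measurableSet_ball, hDμ p hp⟩,
    hd, ?_⟩
  intro p hp q hq hpq x hx y hy
  have hxy : x ≠ y := by
    rintro rfl
    exact Set.disjoint_left.mp (hd p hp q hq hpq.1) hx hy
  have hs2 : ((s / 2 - 1 : ℕ) : ℝ) / s = 1 / 2 - 1 / s := by
    obtain ⟨k, hk⟩ := hE
    have h1 : s / 2 - 1 = k - 1 := by omega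
    have h2 : 1 ≤ k := by omega
    rw [h1, Nat.cast_sub h2]
    have h3 : (s : ℝ) = k + k := by exact_mod_cast hk
    rw [h3]
    have : (k : ℝ) ≠ 0 := by
      have : k ≠ 0 := by omega
      exact_mod_cast this
    field_simp
    push_cast
    ring
  have hA : 1 / 2 - 1 / (s : ℝ) ≤ μ.real {z | 0 < cr x y z} := by
    rw [← hs2, ← hpq.2.1, ← hunion _ (filter_subset _ _)]
    refine measureReal_mono ?_
    intro z hz
    rw [Set.mem_iUnion₂] at hz
    obtain ⟨r, hr, hzr⟩ := hz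
    rw [mem_filter] at hr
    exact hpos p hp q hq r hr.1 hr.2 x hx y hy z hzr
  have hB : 1 / 2 - 1 / (s : ℝ) ≤ μ.real {z | cr x y z < 0} := by
    rw [← hs2, ← hpq.2.2, ← hunion _ (filter_subset _ _)]
    refine measureReal_mono ?_
    intro z hz
    rw [Set.mem_iUnion₂] at hz
    obtain ⟨r, hr, hzr⟩ := hz
    rw [mem_filter] at hr
    exact hneg p hp q hq r hr.1 hr.2 x hx y hy z hzr
  have hcm : Measurable fun z : ℝ × ℝ => cr x y z := by unfold cr; fun_prop
  have hsum : μ.real {z | 0 < cr x y z} + μ.real {z | cr x y z < 0} = 1 := by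
    have h1 : μ.real {z | cr x y z = 0} = 0 := by
      have h2 : {z | cr x y z = 0} = Line (-(y.2 - x.2)) (y.1 - x.1)
          (-(y.2 - x.2) * x.1 + (y.1 - x.1) * x.2) := by
        ext z; exact cr_line x y z
      rw [h2, Measure.real, hline]
      · rfl
      · by_contra hcon
        push Not at hcon
        apply hxy
        exact Prod.ext (by linarith [hcon.2]) (by linarith [hcon.1])
    have h3 : μ.real {z | 0 < cr x y z} + μ.real {z | 0 < cr x y z}ᶜ = 1 := by
      rw [measureReal_add_measureReal_compl (measurableSet_lt measurable_const hcm)]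
      simp
    have h4 : μ.real {z | 0 < cr x y z}ᶜ = μ.real {z | cr x y z < 0} := by
      apply le_antisymm
      · have h5 : {z | 0 < cr x y z}ᶜ ⊆ {z | cr x y z < 0} ∪ {z | cr x y z = 0} := by
          intro z hz
          have hz' : ¬ 0 < cr x y z := hz
          rcases lt_or_eq_of_le (not_lt.mp hz') with h | h
          · exact Or.inl h
          · exact Or.inr h
        refine (measureReal_mono h5).trans ((measureReal_union_le _ _).trans ?_)
        rw [h1, add_zero]
      · refine measureReal_mono ?_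
        intro z hz hz'
        have a1 : cr x y z < 0 := hz
        have a2 : 0 < cr x y z := hz'
        exact lt_asymm a1 a2
    rw [← h4, h3]
  obtain ⟨F, hF⟩ : ∃ F, F = μ.real {z | 0 < cr x y z} := ⟨_, rfl⟩
  obtain ⟨G, hG⟩ : ∃ G, G = μ.real {z | cr x y z < 0} := ⟨_, rfl⟩
  rw [← hF] at hA hsum ⊢
  rw [← hG] at hB hsum ⊢
  have hG' : G = 1 - F := by linarith
  subst hG'
  have e1 : 1 / (s : ℝ) ^ 2 = (1 / s) ^ 2 := by rw [one_div_pow]
  rw [e1]
  nlinarith

end Pool.Agent.L7h42.RH
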