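import Pool.Agent.L7h42.RH.Stm

/-!
# Random subsets of a finite set: assembly of the upper bound
-/

set_option autoImplicit false

namespace Pool.Agent.L7h42.RH

open Finset Pool.Agent.TH124.KE Pool.Agent.Y429.HalvFew
open Pool.Agent.W296.HL (cr Gen Hv IsBisector GeneralPosition Line gen_of_gp)

/-- the average number of bisectors of the `n`-subsets of a set of at least `2 n` points -/
def S_FIN : Prop := ∃ C : ℝ, 0 < C ∧ ∀ n : ℕ, Even n → 2 ≤ n → ∀ Q : Finset (ℝ × ℝ),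
  GeneralPosition Q → 2 * n ≤ #Q →
    ∑ S ∈ powersetCard n Q, ({L | IsBisector S L}.ncard : ℝ) ≤
      C * (n : ℝ) ^ (7 / 6 : ℝ) * ((#Q).choose n : ℝ)

/-- bisectors of subsets in terms of edges of the sheared set -/
lemma sum_bis_le {Q : Finset (ℝ × ℝ)} {ε : ℝ}
    (hε : ∀ x ∈ Q, ∀ y ∈ Q, (shr ε x).1 = (shr ε y).1 → x = y) (m : ℕ) :
    ∑ S ∈ powersetCard (2 * m + 2) Q, {L | IsBisector S L}.ncard ≤
      ∑ S ∈ powersetCard (2 * m + 2) (Q.image (shr ε)), #(kes S m) := by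
  classical
  have h1 : ∀ S ∈ powersetCard (2 * m + 2) Q,
      {L | IsBisector S L}.ncard ≤ #(kes (S.image (shr ε)) m) := by
    intro S hS
    rw [mem_powersetCard] at hS
    have h := bis_le (P := S) (ε := ε) (fun x hx y hy => hε x (hS.1 hx) y (hS.1 hy))
    rw [hS.2] at h
    have e : (2 * m + 2) / 2 - 1 = m := by omega
    rwa [e] at h
  refine (Finset.sum_le_sum h1).trans (le_of_eq ?_)
  refine Finset.sum_nbij (fun S => S.image (shr ε)) ?_ ?_ ?_ (fun _ _ => rfl)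
  · intro S hS
    rw [mem_powersetCard] at hS ⊢
    exact ⟨image_subset_image hS.1, by rw [card_image_of_injective _ (shr_inj ε)]; exact hS.2⟩
  · intro S _ S' _ h
    exact Finset.image_injective (shr_inj ε) h
  · intro S hS
    rw [mem_coe, mem_powersetCard] at hS
    obtain ⟨T, hT, rfl⟩ := subset_image_iff.mp hS.1
    refine ⟨T, ?_, rfl⟩
    rw [mem_coe, mem_powersetCard]
    refine ⟨hT, ?_⟩
    rw [← hS.2, card_image_of_injective _ (shr_inj ε)]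

/-- the arithmetic of the final estimate -/
lemma final_arith {n N B : ℕ} {K T c1 A W : ℝ} (hn : 2 ≤ n) (hnN : 2 * n ≤ N)
    (hB1 : (N : ℝ) / Real.sqrt n ≤ B) (hB2 : (B : ℝ) ≤ 2 * N / Real.sqrt n)
    (hK : K = 8 * ((N : ℝ) ^ 2 * B) ^ (2 / 3 : ℝ)) (hA0 : 0 ≤ A)
    (hc1 : c1 = n / N * A) (hW : W ≤ 12 * ((n : ℝ) ^ (3 / 2 : ℝ) / (N : ℝ) ^ 2) * A)
    (hT : (B : ℝ) * T ≤ K * (c1 + B * W)) :
    T ≤ 208 * (n : ℝ) ^ (7 / 6 : ℝ) * A := by
  have hn0 : (0 : ℝ) < n := by positivity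
  have hN0 : (0 : ℝ) < N := by
    have : 0 < N := by omega
    exact_mod_cast this
  have hs0 : 0 < Real.sqrt n := Real.sqrt_pos.mpr hn0
  have hBpos : (0 : ℝ) < B := lt_of_lt_of_le (by positivity) hB1
  have hs : Real.sqrt n = (n : ℝ) ^ (1 / 2 : ℝ) := Real.sqrt_eq_rpow _
  have hK0 : 0 ≤ K := by rw [hK]; positivity
  -- bound for K
  have hK2 : K ≤ 16 * (N : ℝ) ^ 2 * (n : ℝ) ^ (-(1 / 3) : ℝ) := by
    have h1 : (N : ℝ) ^ 2 * B ≤ 2 * ((N : ℝ) ^ 3 * (n : ℝ) ^ (-(1 / 2) : ℝ)) := by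
      calc (N : ℝ) ^ 2 * B ≤ (N : ℝ) ^ 2 * (2 * N / Real.sqrt n) := by gcongr
        _ = 2 * ((N : ℝ) ^ 3 * (n : ℝ) ^ (-(1 / 2) : ℝ)) := by
          rw [hs, Real.rpow_neg hn0.le]; ring
    have h2 : ((N : ℝ) ^ 2 * B) ^ (2 / 3 : ℝ) ≤
        (2 * ((N : ℝ) ^ 3 * (n : ℝ) ^ (-(1 / 2) : ℝ))) ^ (2 / 3 : ℝ) :=
      Real.rpow_le_rpow (by positivity) h1 (by norm_num)
    have h3 : (2 * ((N : ℝ) ^ 3 * (n : ℝ) ^ (-(1 / 2) : ℝ))) ^ (2 / 3 : ℝ) =
        (2 : ℝ) ^ (2 / 3 : ℝ) * ((N : ℝ) ^ 2 * (n : ℝ) ^ (-(1 / 3) : ℝ)) := by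
      rw [Real.mul_rpow (by norm_num) (by positivity), Real.mul_rpow (by positivity) (by positivity)]
      congr 2
      · rw [← Real.rpow_natCast, ← Real.rpow_natCast, ← Real.rpow_mul hN0.le]
        norm_num
      · rw [← Real.rpow_mul hn0.le]
        norm_num
    have h4 : (2 : ℝ) ^ (2 / 3 : ℝ) ≤ 2 := by
      conv_rhs => rw [← Real.rpow_one 2]
      exact Real.rpow_le_rpow_of_exponent_le (by norm_num) (by norm_num)
    rw [hK]
    calc 8 * ((N : ℝ) ^ 2 * B) ^ (2 / 3 : ℝ)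
        ≤ 8 * ((2 : ℝ) ^ (2 / 3 : ℝ) * ((N : ℝ) ^ 2 * (n : ℝ) ^ (-(1 / 3) : ℝ))) := by
          rw [← h3]; gcongr
      _ ≤ 8 * (2 * ((N : ℝ) ^ 2 * (n : ℝ) ^ (-(1 / 3) : ℝ))) := by gcongr
      _ = 16 * (N : ℝ) ^ 2 * (n : ℝ) ^ (-(1 / 3) : ℝ) := by ring
  -- bound for c1 / B
  have hc1B : c1 ≤ B * (((n : ℝ) ^ (3 / 2 : ℝ) / (N : ℝ) ^ 2) * A) := by
    have h1 : (n : ℝ) ^ (3 / 2 : ℝ) = n * Real.sqrt n := by
      rw [hs, ← Real.rpow_one_add' hn0.le (by norm_num)]; norm_num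
    calc c1 = (N / Real.sqrt n) * ((n : ℝ) * Real.sqrt n / (N : ℝ) ^ 2 * A) := by
          rw [hc1]; field_simp
      _ ≤ B * ((n : ℝ) * Real.sqrt n / (N : ℝ) ^ 2 * A) := by gcongr
      _ = _ := by rw [h1]
  have hT2 : T ≤ K * (13 * ((n : ℝ) ^ (3 / 2 : ℝ) / (N : ℝ) ^ 2) * A) := by
    have h1 : (B : ℝ) * T ≤ B * (K * (13 * ((n : ℝ) ^ (3 / 2 : ℝ) / (N : ℝ) ^ 2) * A)) := by
      refine hT.trans ?_
      have h2 : c1 + B * W ≤ B * (13 * ((n : ℝ) ^ (3 / 2 : ℝ) / (N : ℝ) ^ 2) * A) := by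
        have h3 : B * W ≤ B * (12 * ((n : ℝ) ^ (3 / 2 : ℝ) / (N : ℝ) ^ 2) * A) := by gcongr
        calc c1 + B * W ≤ B * (((n : ℝ) ^ (3 / 2 : ℝ) / (N : ℝ) ^ 2) * A) +
              B * (12 * ((n : ℝ) ^ (3 / 2 : ℝ) / (N : ℝ) ^ 2) * A) := add_le_add hc1B h3
          _ = _ := by ring
      calc K * (c1 + B * W) ≤ K * (B * (13 * ((n : ℝ) ^ (3 / 2 : ℝ) / (N : ℝ) ^ 2) * A)) := by
            gcongr
        _ = _ := by ring
    exact le_of_mul_le_mul_left h1 hBpos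
  refine hT2.trans ?_
  have h5 : 0 ≤ 13 * ((n : ℝ) ^ (3 / 2 : ℝ) / (N : ℝ) ^ 2) * A := by positivity
  calc K * (13 * ((n : ℝ) ^ (3 / 2 : ℝ) / (N : ℝ) ^ 2) * A)
      ≤ (16 * (N : ℝ) ^ 2 * (n : ℝ) ^ (-(1 / 3) : ℝ)) *
        (13 * ((n : ℝ) ^ (3 / 2 : ℝ) / (N : ℝ) ^ 2) * A) := by gcongr
    _ = 208 * ((n : ℝ) ^ (-(1 / 3) : ℝ) * (n : ℝ) ^ (3 / 2 : ℝ)) * A := by
      field_simp; ring
    _ = _ := by
      rw [← Real.rpow_add hn0]; norm_num

theorem s_FIN (hW : S_WIN) (hA : S_AVG) (hU : S_UNI) (hH : S_HYP) : S_FIN := by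
  classical
  refine ⟨208, by norm_num, ?_⟩
  intro n hn hn2 Q hQ hN
  obtain ⟨ε, hε⟩ := exists_shear Q
  have hG := gp_shear (gen_of_gp hQ) hε
  set Q' := Q.image (shr ε) with hQ'
  have hcard : #Q' = #Q := card_image_of_injective _ (shr_inj ε)
  obtain ⟨N, hNd⟩ : ∃ N, N = #Q := ⟨_, rfl⟩
  rw [← hNd] at hN
  obtain ⟨m, hm⟩ : ∃ m, n = 2 * m + 2 := by
    obtain ⟨r, hr⟩ := hn
    exact ⟨r - 1, by omega⟩
  obtain ⟨M, hM⟩ : ∃ M, N = M + 2 := ⟨N - 2, by omega⟩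
  have hmM : 4 * m + 2 ≤ M := by omega
  obtain ⟨h1, h2, h3⟩ := hH m M hmM
  have hn0 : (0 : ℝ) < n := by positivity
  have hN0 : (0 : ℝ) < N := by
    have : 0 < N := by omega
    exact_mod_cast this
  have hs0 : 0 < Real.sqrt n := Real.sqrt_pos.mpr hn0
  set B : ℕ := ⌈(N : ℝ) / Real.sqrt n⌉₊ with hB
  have hB1 : (N : ℝ) / Real.sqrt n ≤ B := Nat.le_ceil _
  have hsn : Real.sqrt n ≤ N := by
    rw [Real.sqrt_le_left (by positivity)]
    have h4 : (n : ℝ) ≤ N := by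
      have : n ≤ N := by omega
      exact_mod_cast this
    have h5 : (1 : ℝ) ≤ N := by
      have : 1 ≤ N := by omega
      exact_mod_cast this
    nlinarith
  have hB2 : (B : ℝ) ≤ 2 * N / Real.sqrt n := by
    have h4 : (B : ℝ) < N / Real.sqrt n + 1 := Nat.ceil_lt_add_one (by positivity)
    have h5 : 1 ≤ (N : ℝ) / Real.sqrt n := by rw [le_div_iff₀ hs0]; linarith
    have h6 : 2 * (N : ℝ) / Real.sqrt n = N / Real.sqrt n + N / Real.sqrt n := by ring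
    rw [h6]; linarith
  have hBpos : 1 ≤ B := by
    rw [hB, Nat.one_le_ceil_iff]; positivity
  set K : ℝ := 8 * ((N : ℝ) ^ 2 * B) ^ (2 / 3 : ℝ) with hK
  have hwin : ∀ a, (∑ j ∈ Ico a (a + B), (#(kes Q' j) : ℝ)) ≤ K := by
    intro a
    have := hW Q' hG a B hBpos
    rwa [hcard, ← hNd] at this
  set W : ℕ := ⌊8 * (M.choose (2 * m) : ℝ) / Real.sqrt (m + 1)⌋₊ with hWd
  have hsm : 0 < Real.sqrt ((m : ℝ) + 1) := Real.sqrt_pos.mpr (by positivity)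
  have hWle : ∀ j < M + 1, j.choose m * (M - j).choose m ≤ W := by
    intro j hj
    rw [hWd, Nat.le_floor_iff (by positivity), le_div_iff₀ hsm]
    exact h2 j (by omega)
  have huni := hU (fun j => #(kes Q' j)) (fun j => j.choose m * (M - j).choose m) (M + 1) B W K
    hBpos hwin (fun i j k hij hjk hk => h1 i j k hij hjk (by omega)) hWle
  have havg := hA Q' hG m
  rw [hcard, ← hNd, hM] at havg
  have e1 : M + 2 - 1 = M + 1 := by omega
  have e2 : M + 2 - 2 = M := by omega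
  rw [e1, e2] at havg
  have hsum := (sum_bis_le hε m).trans havg
  set T : ℝ := ∑ S ∈ powersetCard n Q, ({L | IsBisector S L}.ncard : ℝ) with hT
  have hTle : T ≤ ∑ j ∈ range (M + 1), ((#(kes Q' j) : ℕ) : ℝ) *
      ((j.choose m * (M - j).choose m : ℕ) : ℝ) := by
    rw [hT, hm]
    have : ((∑ S ∈ powersetCard (2 * m + 2) Q, {L | IsBisector S L}.ncard : ℕ) : ℝ) ≤
        ((∑ j ∈ range (M + 1), #(kes Q' j) * (j.choose m * (M - j).choose m) : ℕ) : ℝ) := by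
      exact_mod_cast hsum
    push_cast at this ⊢
    exact this
  -- the binomial identities
  have hA0 : (0 : ℝ) ≤ (N.choose n : ℝ) := by positivity
  have hc1 : (((M + 1).choose (2 * m + 1) : ℕ) : ℝ) = n / N * (N.choose n : ℝ) := by
    have h := Nat.add_one_mul_choose_eq (M + 1) (2 * m + 1)
    have h' : ((M : ℝ) + 1 + 1) * ((M + 1).choose (2 * m + 1) : ℝ) =
        ((M + 1 + 1).choose (2 * m + 1 + 1) : ℝ) * ((2 * m + 1 : ℝ) + 1) := by exact_mod_cast h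
    have hN' : (N : ℝ) = M + 1 + 1 := by rw [hM]; push_cast; ring
    have hn' : (n : ℝ) = 2 * m + 1 + 1 := by rw [hm]; push_cast; ring
    have hch : (N.choose n : ℝ) = ((M + 1 + 1).choose (2 * m + 1 + 1) : ℝ) := by
      rw [hM, hm]
    rw [hch, div_mul_eq_mul_div, eq_div_iff hN0.ne', hN', hn']
    linarith
  have hc2 : ((M.choose (2 * m) : ℕ) : ℝ) * (N - 1) = (n - 1) * (((M + 1).choose (2 * m + 1) : ℕ) : ℝ) := by
    have h := Nat.add_one_mul_choose_eq M (2 * m)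
    have h' : ((M : ℝ) + 1) * (M.choose (2 * m) : ℝ) =
        ((M + 1).choose (2 * m + 1) : ℝ) * ((2 * m : ℝ) + 1) := by exact_mod_cast h
    have hN' : (N : ℝ) = M + 1 + 1 := by rw [hM]; push_cast; ring
    have hn' : (n : ℝ) = 2 * m + 1 + 1 := by rw [hm]; push_cast; ring
    rw [hN', hn']
    linarith
  have hW2 : (W : ℝ) ≤ 12 * ((n : ℝ) ^ (3 / 2 : ℝ) / (N : ℝ) ^ 2) * (N.choose n : ℝ) := by
    have h4 : (W : ℝ) ≤ 8 * (M.choose (2 * m) : ℝ) / Real.sqrt (m + 1) :=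
      Nat.floor_le (by positivity)
    have hnN : (2 : ℝ) * n ≤ N := by exact_mod_cast hN
    have hn2' : (2 : ℝ) ≤ n := by exact_mod_cast hn2
    have hN1 : (0 : ℝ) < (N : ℝ) - 1 := by linarith
    have h5 : ((M.choose (2 * m) : ℕ) : ℝ) ≤ n / N * (n / N * (N.choose n : ℝ)) := by
      rw [← hc1]
      have h6 : ((M.choose (2 * m) : ℕ) : ℝ) =
          (n - 1) / (N - 1) * (((M + 1).choose (2 * m + 1) : ℕ) : ℝ) := by
        rw [div_mul_eq_mul_div, eq_div_iff hN1.ne', hc2]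
      rw [h6]
      apply mul_le_mul_of_nonneg_right _ (by positivity)
      rw [div_le_div_iff₀ hN1 hN0]
      nlinarith
    have h7 : Real.sqrt ((m : ℝ) + 1) = Real.sqrt n / Real.sqrt 2 := by
      rw [← Real.sqrt_div' _ (by norm_num)]
      congr 1
      rw [hm]; push_cast; ring
    have h8 : Real.sqrt 2 ≤ 3 / 2 := by
      rw [Real.sqrt_le_left (by norm_num)]; norm_num
    have h9 : (n : ℝ) ^ (3 / 2 : ℝ) = n * Real.sqrt n := by
      rw [Real.sqrt_eq_rpow, ← Real.rpow_one_add' hn0.le (by norm_num)]; norm_num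
    have h10 : (n : ℝ) = Real.sqrt n * Real.sqrt n := (Real.mul_self_sqrt hn0.le).symm
    calc (W : ℝ) ≤ 8 * (M.choose (2 * m) : ℝ) / Real.sqrt (m + 1) := h4
      _ ≤ 8 * (n / N * (n / N * (N.choose n : ℝ))) / Real.sqrt (m + 1) := by gcongr
      _ = 8 * Real.sqrt 2 * ((n * n / Real.sqrt n) / (N : ℝ) ^ 2) * (N.choose n : ℝ) := by
        rw [h7]; field_simp
      _ = 8 * Real.sqrt 2 * ((n : ℝ) ^ (3 / 2 : ℝ) / (N : ℝ) ^ 2) * (N.choose n : ℝ) := by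
        congr 3
        rw [h9, div_eq_iff hs0.ne', mul_assoc, ← h10]
      _ ≤ 8 * (3 / 2) * ((n : ℝ) ^ (3 / 2 : ℝ) / (N : ℝ) ^ 2) * (N.choose n : ℝ) := by gcongr
      _ = _ := by ring
  have hwsum : (∑ j ∈ range (M + 1), ((j.choose m * (M - j).choose m : ℕ) : ℝ)) =
      (((M + 1).choose (2 * m + 1) : ℕ) : ℝ) := by
    rw [← h3]; push_cast; rfl
  have hmul : (B : ℝ) * T ≤ K * ((((M + 1).choose (2 * m + 1) : ℕ) : ℝ) + B * W) := by
    rw [← hwsum]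
    refine le_trans ?_ huni
    gcongr
  rw [← hNd]
  exact final_arith hn2 hN hB1 hB2 hK hA0 hc1 hW2 hmul

end Pool.Agent.L7h42.RH
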