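import Pool.Agent.L7h42.RH.Low
import Pool.Agent.L7h42.RH.Clu
import Pool.Agent.L7h22.RH.Iid
import Pool.Agent.L7h22.RH.Gpa

/-!
# Assembly of the lower bound
-/

set_option autoImplicit false

namespace Pool.Agent.L7h42.RH

open Finset MeasureTheory
open Pool.Agent.W296.HL (cr Gen Hv IsBisector GeneralPosition Line HH mem_HH two_mul_ncard_le
  gen_of_gp)
open Pool.Agent.L7h22.RH

/-- the central binomial coefficient -/
lemma cb_lower (m : ℕ) (hm : 1 ≤ m) : (16 : ℝ) ^ m ≤ 4 * m * ((2 * m).choose m : ℝ) ^ 2 := by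
  induction m, hm using Nat.le_induction with
  | base => norm_num [Nat.choose]
  | succ m hm ih =>
    have h := Nat.succ_mul_centralBinom_succ m
    simp only [Nat.centralBinom_eq_two_mul_choose] at h
    have h' : ((m : ℝ) + 1) * ((2 * (m + 1)).choose (m + 1) : ℝ) =
        2 * (2 * m + 1) * ((2 * m).choose m : ℝ) := by exact_mod_cast h
    set x : ℝ := ((2 * m).choose m : ℝ) with hx
    set y : ℝ := ((2 * (m + 1)).choose (m + 1) : ℝ) with hy
    have hm0 : (0 : ℝ) < (m : ℝ) := by exact_mod_cast hm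
    have hy2 : y = 2 * (2 * m + 1) * x / (m + 1) := by
      rw [eq_div_iff (by positivity)]; linarith
    rw [pow_succ, hy2]
    push_cast
    have h3 : 4 * ((m : ℝ) + 1) * (2 * (2 * m + 1) * x / (m + 1)) ^ 2 =
        (16 * (2 * m + 1) ^ 2 / (m + 1)) * x ^ 2 := by
      field_simp; ring
    rw [h3]
    have h4 : (4 * (m : ℝ) * 16) * x ^ 2 ≤ (16 * (2 * m + 1) ^ 2 / (m + 1)) * x ^ 2 := by
      apply mul_le_mul_of_nonneg_right _ (sq_nonneg x)
      rw [le_div_iff₀ (by positivity)]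
      nlinarith
    nlinarith

lemma cb_sqrt (m : ℕ) (hm : 1 ≤ m) : (4 : ℝ) ^ m ≤ 2 * Real.sqrt m * ((2 * m).choose m : ℝ) := by
  have h := cb_lower m hm
  have h1 : ((4 : ℝ) ^ m) ^ 2 ≤ (2 * Real.sqrt m * ((2 * m).choose m : ℝ)) ^ 2 := by
    calc ((4 : ℝ) ^ m) ^ 2 = 16 ^ m := by rw [← pow_mul, mul_comm, pow_mul]; norm_num
      _ ≤ _ := h
      _ = (2 * Real.sqrt m * ((2 * m).choose m : ℝ)) ^ 2 := by
        rw [mul_pow, mul_pow, Real.sq_sqrt (Nat.cast_nonneg m)]; ring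
  exact le_of_sq_le_sq h1 (by positivity)

lemma pw_lower {m : ℕ} {s : ℝ} (hm : 3 ≤ m) (hs : ((2 * m + 2 : ℕ) : ℝ) ≤ s ^ 2) :
    1 / 21 ≤ (1 - 4 / s ^ 2) ^ m := by
  have hm' : (3 : ℝ) ≤ m := by exact_mod_cast hm
  have hn : (8 : ℝ) ≤ ((2 * m + 2 : ℕ) : ℝ) := by push_cast; linarith
  set n : ℝ := ((2 * m + 2 : ℕ) : ℝ) with hnd
  have hnm : n = 2 * m + 2 := by rw [hnd]; push_cast; ring
  have hs0 : 0 < s ^ 2 := by linarith
  have h1 : (n - 4) / n ≤ 1 - 4 / s ^ 2 := by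
    have : (n - 4) / n = 1 - 4 / n := by field_simp
    rw [this]
    have : 4 / s ^ 2 ≤ 4 / n := by gcongr
    linarith
  have h2 : Real.exp (-3) ≤ ((n - 4) / n) ^ m := by
    have h3 : (n - 4) / n = (1 + 4 / (n - 4))⁻¹ := by
      have h30 : n - 4 ≠ 0 := by linarith
      have h31 : 1 + 4 / (n - 4) = n / (n - 4) := by
        field_simp
        ring
      rw [h31, inv_div]
    rw [h3, inv_pow, Real.exp_neg]
    apply inv_anti₀ (by
      have : 0 < n - 4 := by linarith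
      positivity)
    have h4 : 1 + 4 / (n - 4) ≤ Real.exp (4 / (n - 4)) := by
      have := Real.add_one_le_exp (4 / (n - 4))
      linarith
    calc (1 + 4 / (n - 4)) ^ m ≤ (Real.exp (4 / (n - 4))) ^ m := by
          apply pow_le_pow_left₀ _ h4
          have : 0 < n - 4 := by linarith
          positivity
      _ = Real.exp (m * (4 / (n - 4))) := by rw [← Real.exp_nat_mul]
      _ ≤ Real.exp 3 := by
        apply Real.exp_le_exp.mpr
        rw [mul_div_assoc', div_le_iff₀ (by linarith)]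
        rw [hnm]; linarith
  have h5 : (1 : ℝ) / 21 ≤ Real.exp (-3) := by
    rw [Real.exp_neg, one_div]
    apply inv_anti₀ (Real.exp_pos _)
    have h6 := Real.exp_one_lt_d9
    have h7 : Real.exp 3 = Real.exp 1 ^ 3 := by rw [← Real.exp_nat_mul]; norm_num
    rw [h7]
    have h8 : 0 < Real.exp 1 := Real.exp_pos _
    calc Real.exp 1 ^ 3 ≤ (2.7182818286 : ℝ) ^ 3 := by gcongr
      _ ≤ 21 := by norm_num
  refine h5.trans (h2.trans (pow_le_pow_left₀ ?_ h1 m))
  apply div_nonneg <;> linarith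

lemma card_lt (n : ℕ) : 2 * (#{z : Fin n × Fin n | z.1 < z.2}) = n * (n - 1) := by
  classical
  have h1 : #{z : Fin n × Fin n | z.1 < z.2} = #{z : Fin n × Fin n | z.2 < z.1} := by
    refine card_bij' (fun z _ => (z.2, z.1)) (fun z _ => (z.2, z.1)) ?_ ?_ ?_ ?_
    · intro z hz; simpa using hz
    · intro z hz; simpa using hz
    · intro z _; rfl
    · intro z _; rfl
  have h2 : (univ : Finset (Fin n × Fin n)) = ({z : Fin n × Fin n | z.1 < z.2} : Finset _) ∪
      ({z : Fin n × Fin n | z.2 < z.1} : Finset _) ∪ ({z : Fin n × Fin n | z.1 = z.2} : Finset _) := by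
    ext z
    simp only [mem_univ, mem_union, mem_filter, true_and, true_iff]
    rcases lt_trichotomy z.1 z.2 with h | h | h
    · exact Or.inl (Or.inl h)
    · exact Or.inr h
    · exact Or.inl (Or.inr h)
  have h3 : #(univ : Finset (Fin n × Fin n)) = n * n := by
    rw [card_univ, Fintype.card_prod, Fintype.card_fin]
  have h4 : #({z : Fin n × Fin n | z.1 = z.2} : Finset _) = n := by
    have : ({z : Fin n × Fin n | z.1 = z.2} : Finset _) = univ.image (fun i : Fin n => (i, i)) := by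
      ext z
      simp only [mem_filter, mem_univ, true_and, mem_image]
      constructor
      · intro h; exact ⟨z.1, Prod.ext rfl h⟩
      · rintro ⟨i, rfl⟩; rfl
    rw [this, card_image_of_injective _ (fun i j h => (Prod.mk.inj h).1), card_univ,
      Fintype.card_fin]
  rw [h2, card_union_of_disjoint, card_union_of_disjoint, h4, ← h1] at h3
  · rcases Nat.eq_zero_or_pos n with h0 | h0
    · subst h0; simp
    · obtain ⟨k, rfl⟩ : ∃ k, n = k + 1 := ⟨n - 1, by omega⟩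
      rw [Nat.add_sub_cancel]
      nlinarith
  · rw [disjoint_left]
    intro z hz hz'
    rw [mem_filter] at hz hz'
    exact lt_asymm hz.2 hz'.2
  · rw [disjoint_left]
    intro z hz hz'
    rw [mem_union, mem_filter, mem_filter] at hz
    rw [mem_filter] at hz'
    rcases hz with h | h
    · exact absurd hz'.2 h.2.ne
    · exact absurd hz'.2 h.2.ne'

/-- the expectation of the number of halving pairs -/
lemma integral_hp {n : ℕ} (μ : Measure (ℝ × ℝ)) [IsProbabilityMeasure μ] :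
    ∫ X, (hp X : ℝ) ∂(Measure.pi fun _ : Fin n => μ) =
      ∑ z ∈ ({z : Fin n × Fin n | z.1 < z.2} : Finset _),
        (Measure.pi fun _ : Fin n => μ).real {X | HP X z.1 z.2} := by
  classical
  have h1 : (fun X : Fin n → ℝ × ℝ => (hp X : ℝ)) =
      fun X => ∑ z ∈ ({z : Fin n × Fin n | z.1 < z.2} : Finset _),
        Set.indicator {X | HP X z.1 z.2} (fun _ => (1 : ℝ)) X := by
    funext X
    unfold hp
    rw [← Finset.filter_filter, Finset.card_filter]
    push_cast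
    refine Finset.sum_congr rfl fun z _ => ?_
    rw [Set.indicator_apply]
    rfl
  rw [h1, integral_finsetSum]
  · refine Finset.sum_congr rfl fun z _ => ?_
    rw [integral_indicator (meas_HP z.1 z.2), setIntegral_const, smul_eq_mul, mul_one]
  · intro z _
    exact (integrable_const (1 : ℝ)).indicator (meas_HP z.1 z.2)

/-- **lower bound for the cluster measure** -/
theorem low_main : ∀ n s : ℕ, Even n → Even s → 8 ≤ n → n ≤ s ^ 2 →
    ∀ P : Finset (ℝ × ℝ), GeneralPosition P → #P = s →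
      ∃ μ : Measure (ℝ × ℝ), Diffuse μ ∧
        1 / 84 * (n : ℝ) ^ (3 / 2 : ℝ) * ({L | IsBisector P L}.ncard : ℝ) / (s : ℝ) ^ 2 ≤
          ∫ X, (bis X : ℝ) ∂(Measure.pi fun _ : Fin n => μ) := by
  classical
  intro n s hn hs hn8 hns P hP hPs
  have hG := gen_of_gp hP
  have hs2 : 2 ≤ s := by
    by_contra h
    have : s ^ 2 ≤ 1 ^ 2 := Nat.pow_le_pow_left (by omega) 2
    omega
  obtain ⟨m, rfl⟩ : ∃ m, n = 2 * m + 2 := by
    obtain ⟨r, hr⟩ := hn
    exact ⟨r - 1, by omega⟩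
  obtain ⟨μ, D, hμ, hD1, hD2, hD3⟩ := s_CLU P hG (hPs ▸ hs) (hPs ▸ hs2)
  refine ⟨μ, hμ, ?_⟩
  have := hμ.1
  rw [hPs] at hD1 hD3
  set ν := Measure.pi fun _ : Fin (2 * m + 2) => μ with hν
  have hbis : (fun X : Fin (2 * m + 2) → ℝ × ℝ => (bis X : ℝ)) =ᵐ[ν] fun X => (hp X : ℝ) := by
    filter_upwards [s_GPA μ hμ (2 * m + 2)] with X hX
    rw [(s_MEA (2 * m + 2)).2 X hX.1 hX.2]
  rw [integral_congr_ae hbis, hν, integral_hp]
  set f0 := {L | IsBisector P L}.ncard with hf0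
  have hH := two_mul_ncard_le P
  rw [← hf0] at hH
  have hs0 : (0 : ℝ) < s := by
    have : 0 < s := by omega
    exact_mod_cast this
  have hns' : ((2 * m + 2 : ℕ) : ℝ) ≤ (s : ℝ) ^ 2 := by exact_mod_cast hns
  set θ : ℝ := 1 / 4 - 1 / (s : ℝ) ^ 2 with hθ
  have hθ4 : θ = (1 - 4 / (s : ℝ) ^ 2) / 4 := by rw [hθ]; ring
  have hn8' : (8 : ℝ) ≤ ((2 * m + 2 : ℕ) : ℝ) := by exact_mod_cast hn8
  have hθ0 : 0 ≤ θ := by
    rw [hθ, sub_nonneg, div_le_div_iff₀ (by positivity) (by norm_num)]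
    linarith
  have hm3 : 3 ≤ m := by omega
  -- a single pair
  have hpair : ∀ z ∈ ({z : Fin (2 * m + 2) × Fin (2 * m + 2) | z.1 < z.2} : Finset _),
      (2 * f0 : ℝ) * ((1 / s) * (1 / s) * ((2 * m).choose m : ℝ) * θ ^ m) ≤
        (Measure.pi fun _ : Fin (2 * m + 2) => μ).real {X | HP X z.1 z.2} := by
    intro z hz
    rw [mem_filter] at hz
    have hne : z.1 ≠ z.2 := hz.2.ne
    have hdis : Set.PairwiseDisjoint (↑(HH P)) (fun w : (ℝ × ℝ) × (ℝ × ℝ) =>
        {X : Fin (2 * m + 2) → ℝ × ℝ | X z.1 ∈ D w.1 ∧ X z.2 ∈ D w.2 ∧ HP X z.1 z.2}) := by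
      intro w hw w' hw' hww
      rw [mem_coe, mem_HH] at hw hw'
      refine Set.disjoint_left.mpr ?_
      rintro X ⟨a1, a2, -⟩ ⟨b1, b2, -⟩
      apply hww
      refine Prod.ext ?_ ?_
      · by_contra h
        exact Set.disjoint_left.mp (hD2 _ hw.1 _ hw'.1 h) a1 b1
      · by_contra h
        exact Set.disjoint_left.mp (hD2 _ hw.2.1 _ hw'.2.1 h) a2 b2
    have hms : ∀ w ∈ HH P, MeasurableSet
        {X : Fin (2 * m + 2) → ℝ × ℝ | X z.1 ∈ D w.1 ∧ X z.2 ∈ D w.2 ∧ HP X z.1 z.2} := by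
      intro w hw
      rw [mem_HH] at hw
      have e1 : MeasurableSet {X : Fin (2 * m + 2) → ℝ × ℝ | X z.1 ∈ D w.1} :=
        (measurable_pi_apply z.1) (hD1 _ hw.1).1
      have e2 : MeasurableSet {X : Fin (2 * m + 2) → ℝ × ℝ | X z.2 ∈ D w.2} :=
        (measurable_pi_apply z.2) (hD1 _ hw.2.1).1
      exact e1.inter (e2.inter (meas_HP z.1 z.2))
    have hone : ∀ w ∈ HH P, (1 / s) * (1 / s) * ((2 * m).choose m : ℝ) * θ ^ m ≤
        (Measure.pi fun _ : Fin (2 * m + 2) => μ).real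
          {X : Fin (2 * m + 2) → ℝ × ℝ | X z.1 ∈ D w.1 ∧ X z.2 ∈ D w.2 ∧ HP X z.1 z.2} := by
      intro w hw
      rw [mem_HH] at hw
      have h := s_LOW μ hμ.1 m (D w.1) (D w.2) θ (hD1 _ hw.1).1 (hD1 _ hw.2.1).1 hθ0
        (hD3 _ hw.1 _ hw.2.1 hw.2.2) z.1 z.2 hne
      rw [(hD1 _ hw.1).2, (hD1 _ hw.2.1).2] at h
      exact h
    calc (2 * f0 : ℝ) * ((1 / s) * (1 / s) * ((2 * m).choose m : ℝ) * θ ^ m)
        ≤ (#(HH P) : ℝ) * ((1 / s) * (1 / s) * ((2 * m).choose m : ℝ) * θ ^ m) := by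
          have : (2 * f0 : ℝ) ≤ #(HH P) := by exact_mod_cast hH
          gcongr
      _ = ∑ w ∈ HH P, ((1 / s) * (1 / s) * ((2 * m).choose m : ℝ) * θ ^ m) := by
          rw [Finset.sum_const, nsmul_eq_mul]
      _ ≤ ∑ w ∈ HH P, (Measure.pi fun _ : Fin (2 * m + 2) => μ).real
          {X : Fin (2 * m + 2) → ℝ × ℝ | X z.1 ∈ D w.1 ∧ X z.2 ∈ D w.2 ∧ HP X z.1 z.2} :=
          Finset.sum_le_sum hone
      _ = (Measure.pi fun _ : Fin (2 * m + 2) => μ).real (⋃ w ∈ HH P,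
          {X : Fin (2 * m + 2) → ℝ × ℝ | X z.1 ∈ D w.1 ∧ X z.2 ∈ D w.2 ∧ HP X z.1 z.2}) := by
          rw [measureReal_biUnion_finset hdis hms]
      _ ≤ _ := by
          refine measureReal_mono ?_
          intro X hX
          rw [Set.mem_iUnion₂] at hX
          obtain ⟨w, -, hw⟩ := hX
          exact hw.2.2
  refine le_trans ?_ (Finset.sum_le_sum hpair)
  rw [Finset.sum_const, nsmul_eq_mul]
  have hcl := card_lt (2 * m + 2)
  have hcl' : (2 : ℝ) * (#{z : Fin (2 * m + 2) × Fin (2 * m + 2) | z.1 < z.2} : ℝ) =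
      ((2 * m + 2 : ℕ) : ℝ) * (2 * m + 1) := by
    have : 2 * m + 2 - 1 = 2 * m + 1 := by omega
    rw [this] at hcl
    exact_mod_cast hcl
  set c : ℝ := (#{z : Fin (2 * m + 2) × Fin (2 * m + 2) | z.1 < z.2} : ℝ) with hc
  have hcb := cb_sqrt m (by omega)
  have hpw := pw_lower hm3 hns'
  have hm0 : (0 : ℝ) < m := by
    have : 0 < m := by omega
    exact_mod_cast this
  have hsm : 0 < Real.sqrt m := Real.sqrt_pos.mpr hm0
  set n : ℝ := ((2 * m + 2 : ℕ) : ℝ) with hnd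
  have hnm : n = 2 * m + 2 := by rw [hnd]; push_cast; ring
  have hn0 : 0 < n := by linarith
  -- the binomial probability
  have hbin : 1 / (42 * Real.sqrt n) ≤ ((2 * m).choose m : ℝ) * θ ^ m := by
    have h1 : 1 / (2 * Real.sqrt m) ≤ ((2 * m).choose m : ℝ) / 4 ^ m := by
      rw [div_le_div_iff₀ (by positivity) (by positivity)]
      linarith
    have h2 : ((2 * m).choose m : ℝ) * θ ^ m =
        ((2 * m).choose m : ℝ) / 4 ^ m * (1 - 4 / (s : ℝ) ^ 2) ^ m := by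
      rw [hθ4, div_pow]; ring
    rw [h2]
    have h3 : Real.sqrt m ≤ Real.sqrt n := Real.sqrt_le_sqrt (by linarith)
    have hsn : 0 < Real.sqrt n := Real.sqrt_pos.mpr hn0
    calc 1 / (42 * Real.sqrt n) = 1 / (2 * Real.sqrt n) * (1 / 21) := by field_simp; norm_num
      _ ≤ 1 / (2 * Real.sqrt m) * (1 / 21) := by gcongr
      _ ≤ ((2 * m).choose m : ℝ) / 4 ^ m * (1 - 4 / (s : ℝ) ^ 2) ^ m := by
        apply mul_le_mul h1 hpw (by norm_num) (by positivity)
  have hn32 : n ^ (3 / 2 : ℝ) = n * Real.sqrt n := by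
    rw [Real.sqrt_eq_rpow, ← Real.rpow_one_add' hn0.le (by norm_num)]; norm_num
  have hsn : 0 < Real.sqrt n := Real.sqrt_pos.mpr hn0
  have hsq : Real.sqrt n * Real.sqrt n = n := Real.mul_self_sqrt hn0.le
  have hcn : n ^ 2 / 4 ≤ c := by
    nlinarith
  have hc0 : 0 ≤ c := by rw [hc]; positivity
  calc 1 / 84 * n ^ (3 / 2 : ℝ) * (f0 : ℝ) / (s : ℝ) ^ 2
      = (n ^ 2 / 4) * ((2 * f0 : ℝ) * ((1 / s) * (1 / s) * (1 / (42 * Real.sqrt n)))) := by
        rw [hn32]
        have : n ^ 2 = n * (Real.sqrt n * Real.sqrt n) := by rw [hsq]; ring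
        rw [this]
        field_simp
        ring
    _ ≤ c * ((2 * f0 : ℝ) * ((1 / s) * (1 / s) * (1 / (42 * Real.sqrt n)))) := by gcongr
    _ ≤ c * ((2 * f0 : ℝ) * ((1 / s) * (1 / s) * (((2 * m).choose m : ℝ) * θ ^ m))) := by gcongr
    _ = _ := by ring

end Pool.Agent.L7h42.RH
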