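import Pool.Agent.L7h42.RH.Stm

/-!
# Lower bound for the probability of a halving pair
-/

set_option autoImplicit false

namespace Pool.Agent.L7h42.RH

open Finset MeasureTheory Pool.Agent.TH124.KE
open Pool.Agent.W296.HL (cr Gen Hv IsBisector GeneralPosition Line)
open scoped ENNReal

lemma low_T {ι α : Type*} [Fintype ι] [DecidableEq ι] [MeasurableSpace α] (μ : Measure α)
    [IsProbabilityMeasure μ] {i j : ι} (hij : i ≠ j) {A B : Set α} (hA : MeasurableSet A)
    (hB : MeasurableSet B) (S : ι → α → α → Set α)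
    (hS : ∀ l, MeasurableSet {z : (α × α) × α | z.2 ∈ S l z.1.1 z.1.2}) {θ : ℝ≥0∞}
    (hθ : ∀ x ∈ A, ∀ y ∈ B, θ ≤ ∏ l : {l : ι // ¬ (l = i ∨ l = j)}, μ (S l x y)) :
    θ * (μ A * μ B) ≤ (Measure.pi fun _ : ι => μ)
      {X | X i ∈ A ∧ X j ∈ B ∧ ∀ l, ¬ (l = i ∨ l = j) → X l ∈ S l (X i) (X j)} := by
  classical
  set p : ι → Prop := fun l => l = i ∨ l = j with hp
  have hpi : p i := Or.inl rfl
  have hpj : p j := Or.inr rfl
  have hmp := measurePreserving_piEquivPiSubtypeProd (fun _ : ι => μ) p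
  set ν1 := Measure.pi fun _ : Subtype p => μ with hν1
  set ν2 := Measure.pi fun _ : {l // ¬ p l} => μ with hν2
  set A' : Set ((Subtype p → α) × ({l // ¬ p l} → α)) :=
    {z | z.1 ⟨i, hpi⟩ ∈ A ∧ z.1 ⟨j, hpj⟩ ∈ B ∧ ∀ l : {l // ¬ p l},
      z.2 l ∈ S l (z.1 ⟨i, hpi⟩) (z.1 ⟨j, hpj⟩)} with hA'
  have hA'm : MeasurableSet A' := by
    have h1 : MeasurableSet {z : (Subtype p → α) × ({l // ¬ p l} → α) | z.1 ⟨i, hpi⟩ ∈ A} :=
      ((measurable_pi_apply _).comp measurable_fst) hA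
    have h2 : MeasurableSet {z : (Subtype p → α) × ({l // ¬ p l} → α) | z.1 ⟨j, hpj⟩ ∈ B} :=
      ((measurable_pi_apply _).comp measurable_fst) hB
    have h3 : MeasurableSet {z : (Subtype p → α) × ({l // ¬ p l} → α) | ∀ l : {l // ¬ p l},
        z.2 l ∈ S l (z.1 ⟨i, hpi⟩) (z.1 ⟨j, hpj⟩)} := by
      have : {z : (Subtype p → α) × ({l // ¬ p l} → α) | ∀ l : {l // ¬ p l},
        z.2 l ∈ S l (z.1 ⟨i, hpi⟩) (z.1 ⟨j, hpj⟩)} = ⋂ l : {l // ¬ p l},
          (fun z : (Subtype p → α) × ({l // ¬ p l} → α) =>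
            ((z.1 ⟨i, hpi⟩, z.1 ⟨j, hpj⟩), z.2 l)) ⁻¹' {z | z.2 ∈ S l z.1.1 z.1.2} := by
        ext z; simp
      rw [this]
      refine MeasurableSet.iInter fun l => ?_
      refine Measurable.comp (g := id) measurable_id ?_ (hS l)
      exact (((measurable_pi_apply _).comp measurable_fst).prodMk
        ((measurable_pi_apply _).comp measurable_fst)).prodMk
        ((measurable_pi_apply _).comp measurable_snd)
    exact h1.inter (h2.inter h3)
  have hpre : {X : ι → α | X i ∈ A ∧ X j ∈ B ∧ ∀ l, ¬ (l = i ∨ l = j) → X l ∈ S l (X i) (X j)} =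
      (MeasurableEquiv.piEquivPiSubtypeProd (fun _ : ι => α) p) ⁻¹' A' := by
    ext X
    constructor
    · rintro ⟨h1, h2, h3⟩
      exact ⟨h1, h2, fun l => h3 l l.2⟩
    · rintro ⟨h1, h2, h3⟩
      exact ⟨h1, h2, fun l hl => h3 ⟨l, hl⟩⟩
  rw [hpre, hmp.measure_preimage hA'm.nullMeasurableSet, Measure.prod_apply hA'm]
  set D : Set (Subtype p → α) := {Y | Y ⟨i, hpi⟩ ∈ A ∧ Y ⟨j, hpj⟩ ∈ B} with hD
  have hDm : MeasurableSet D :=
    (measurable_pi_apply _ hA).inter (measurable_pi_apply _ hB)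
  have hDv : ν1 D = μ A * μ B := by
    have h1 : D = Set.pi Set.univ (fun l : Subtype p => if l.1 = i then A else B) := by
      ext Y
      simp only [hD, Set.mem_ofPred_eq, Set.mem_pi, Set.mem_univ, forall_true_left]
      constructor
      · rintro ⟨h1, h2⟩ ⟨l, rfl | rfl⟩
        · simpa using h1
        · simpa [Ne.symm hij] using h2
      · intro h
        have h1 := h ⟨i, hpi⟩
        have h2 := h ⟨j, hpj⟩
        simp only [if_true] at h1
        rw [if_neg (Ne.symm hij)] at h2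
        exact ⟨h1, h2⟩
    rw [h1, hν1, Measure.pi_pi]
    have h2 : ∏ l : Subtype p, μ (if l.1 = i then A else B) =
        ∏ l ∈ ({i, j} : Finset ι), μ (if l = i then A else B) := by
      rw [Finset.prod_subtype ({i, j} : Finset ι) (p := p) (by intro x; simp [hp])]
    rw [h2, Finset.prod_pair hij]
    simp [Ne.symm hij]
  calc θ * (μ A * μ B) = ∫⁻ _ in D, θ ∂ν1 := by rw [setLIntegral_const, hDv]
    _ ≤ ∫⁻ Y in D, ν2 (Prod.mk Y ⁻¹' A') ∂ν1 := by
      refine setLIntegral_mono_ae' hDm (Filter.Eventually.of_forall fun Y hY => ?_)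
      refine (hθ _ hY.1 _ hY.2).trans ?_
      rw [← Measure.pi_pi (fun _ : {l // ¬ p l} => μ)]
      refine measure_mono ?_
      intro Z hZ
      rw [Set.mem_pi] at hZ
      exact ⟨hY.1, hY.2, fun l => hZ l (Set.mem_univ _)⟩
    _ ≤ ∫⁻ Y, ν2 (Prod.mk Y ⁻¹' A') ∂ν1 := setLIntegral_le_lintegral _ _

lemma meas_cr_pos : MeasurableSet {z : ((ℝ × ℝ) × (ℝ × ℝ)) × (ℝ × ℝ) | 0 < cr z.1.1 z.1.2 z.2} := by
  have h : Measurable fun z : ((ℝ × ℝ) × (ℝ × ℝ)) × (ℝ × ℝ) => cr z.1.1 z.1.2 z.2 := by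
    unfold cr; fun_prop
  exact measurableSet_lt measurable_const h

lemma meas_cr_neg : MeasurableSet {z : ((ℝ × ℝ) × (ℝ × ℝ)) × (ℝ × ℝ) | cr z.1.1 z.1.2 z.2 < 0} := by
  have h : Measurable fun z : ((ℝ × ℝ) × (ℝ × ℝ)) × (ℝ × ℝ) => cr z.1.1 z.1.2 z.2 := by
    unfold cr; fun_prop
  exact measurableSet_lt h measurable_const

theorem s_LOW : S_LOW := by
  classical
  intro μ hμ m A B θ hA hB hθ0 hθ i j hij
  set ν := Measure.pi fun _ : Fin (2 * m + 2) => μ with hν
  have hij' : #({i, j} : Finset (Fin (2 * m + 2))) = 2 := card_pair hij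
  set R : Finset (Fin (2 * m + 2)) := univ \ {i, j} with hR
  have hRc : #R = 2 * m := by
    rw [hR, card_sdiff_of_subset (subset_univ _), card_univ, Fintype.card_fin, hij']; omega
  have hRm : ∀ l, l ∈ R ↔ ¬ (l = i ∨ l = j) := by
    intro l; rw [hR]; simp
  set F : Finset (Fin (2 * m + 2)) → Set (Fin (2 * m + 2) → ℝ × ℝ) := fun T =>
    {X | X i ∈ A ∧ X j ∈ B ∧ ∀ l, ¬ (l = i ∨ l = j) →
      X l ∈ (if l ∈ T then {z | 0 < cr (X i) (X j) z} else {z | cr (X i) (X j) z < 0})} with hF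
  have hcri : ∀ x y : ℝ × ℝ, cr x y x = 0 := by intro x y; unfold cr; ring
  have hcrj : ∀ x y : ℝ × ℝ, cr x y y = 0 := by intro x y; unfold cr; ring
  -- the positive set
  have hpos : ∀ T ∈ powersetCard m R, ∀ X ∈ F T,
      ({l | 0 < cr (X i) (X j) (X l)} : Finset (Fin (2 * m + 2))) = T ∧
      ({l | cr (X i) (X j) (X l) < 0} : Finset (Fin (2 * m + 2))) = R \ T := by
    intro T hT X hX
    rw [mem_powersetCard] at hT
    obtain ⟨h1, h2, h3⟩ := hX
    constructor
    · ext l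
      rw [mem_filter]
      constructor
      · rintro ⟨-, h⟩
        have hl : ¬ (l = i ∨ l = j) := by
          rintro (rfl | rfl)
          · rw [hcri] at h; exact lt_irrefl _ h
          · rw [hcrj] at h; exact lt_irrefl _ h
        by_contra hlT
        have h4 := h3 l hl
        rw [if_neg hlT] at h4
        exact lt_asymm h h4
      · intro hl
        refine ⟨mem_univ _, ?_⟩
        have h4 := h3 l ((hRm l).mp (hT.1 hl))
        rw [if_pos hl] at h4
        exact h4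
    · ext l
      rw [mem_filter, mem_sdiff]
      constructor
      · rintro ⟨-, h⟩
        have hl : ¬ (l = i ∨ l = j) := by
          rintro (rfl | rfl)
          · rw [hcri] at h; exact lt_irrefl _ h
          · rw [hcrj] at h; exact lt_irrefl _ h
        refine ⟨(hRm l).mpr hl, ?_⟩
        intro hlT
        have h4 := h3 l hl
        rw [if_pos hlT] at h4
        exact lt_asymm h h4
      · rintro ⟨hl, hlT⟩
        refine ⟨mem_univ _, ?_⟩
        have h4 := h3 l ((hRm l).mp hl)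
        rw [if_neg hlT] at h4
        exact h4
  have hsub : (⋃ T ∈ powersetCard m R, F T) ⊆ {X | X i ∈ A ∧ X j ∈ B ∧ HP X i j} := by
    intro X hX
    rw [Set.mem_iUnion₂] at hX
    obtain ⟨T, hT, hXT⟩ := hX
    obtain ⟨h1, h2⟩ := hpos T hT X hXT
    have hT' := mem_powersetCard.mp hT
    refine ⟨hXT.1, hXT.2.1, ?_, ?_⟩
    · rw [h1, hT'.2]; omega
    · rw [h2, card_sdiff_of_subset hT'.1, hRc, hT'.2]; omega
  have hmeas : ∀ T : Finset (Fin (2 * m + 2)), ∀ l : Fin (2 * m + 2), MeasurableSet {z : ((ℝ × ℝ) × (ℝ × ℝ)) × (ℝ × ℝ) |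
      z.2 ∈ (fun (l : Fin (2 * m + 2)) (x y : ℝ × ℝ) => if l ∈ T then {w | 0 < cr x y w}
        else {w | cr x y w < 0}) l z.1.1 z.1.2} := by
    intro T l
    by_cases hl : l ∈ T
    · simp only [hl, if_true]
      exact meas_cr_pos
    · simp only [hl, if_false]
      exact meas_cr_neg
  have hFm : ∀ T, MeasurableSet (F T) := by
    intro T
    have h1 : F T = {X | X i ∈ A} ∩ ({X | X j ∈ B} ∩ ⋂ l : {l // ¬ (l = i ∨ l = j)},
        (fun X : Fin (2 * m + 2) → ℝ × ℝ => ((X i, X j), X l)) ⁻¹' {z : ((ℝ × ℝ) × (ℝ × ℝ)) × (ℝ × ℝ) |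
          z.2 ∈ (fun (l : Fin (2 * m + 2)) (x y : ℝ × ℝ) => if l ∈ T then {w | 0 < cr x y w}
            else {w | cr x y w < 0}) l z.1.1 z.1.2}) := by
      ext X
      simp only [hF, Set.mem_ofPred_eq, Set.mem_inter_iff, Set.mem_iInter, Set.mem_preimage]
      constructor
      · rintro ⟨h1, h2, h3⟩
        exact ⟨h1, h2, fun l => h3 l l.2⟩
      · rintro ⟨h1, h2, h3⟩
        exact ⟨h1, h2, fun l hl => h3 ⟨l, hl⟩⟩
    rw [h1]
    have e1 : MeasurableSet {X : Fin (2 * m + 2) → ℝ × ℝ | X i ∈ A} :=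
      (measurable_pi_apply i) hA
    have e2 : MeasurableSet {X : Fin (2 * m + 2) → ℝ × ℝ | X j ∈ B} :=
      (measurable_pi_apply j) hB
    refine e1.inter (e2.inter (MeasurableSet.iInter fun l => ?_))
    have h2 : Measurable (fun X : Fin (2 * m + 2) → ℝ × ℝ => ((X i, X j), X (l : Fin (2 * m + 2)))) :=
      ((measurable_pi_apply i).prodMk (measurable_pi_apply j)).prodMk (measurable_pi_apply _)
    exact h2 (hmeas T l)
  have hdisj : Set.PairwiseDisjoint (↑(powersetCard m R)) F := by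
    intro T hT T' hT' hne
    refine Set.disjoint_left.mpr fun X hX hX' => hne ?_
    rw [← (hpos T hT X hX).1, ← (hpos T' hT' X hX').1]
  have hθT : ∀ T ∈ powersetCard m R,
      ENNReal.ofReal (θ ^ m) * (μ A * μ B) ≤ ν (F T) := by
    intro T hT
    have hT' := mem_powersetCard.mp hT
    refine low_T μ hij hA hB (fun (l : Fin (2 * m + 2)) (x y : ℝ × ℝ) =>
      if l ∈ T then {w | 0 < cr x y w} else {w | cr x y w < 0}) (hmeas T) ?_
    intro x hx y hy
    have h1 := hθ x hx y hy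
    have h2 : ∏ l : {l : Fin (2 * m + 2) // ¬ (l = i ∨ l = j)}, μ (if (l : Fin (2 * m + 2)) ∈ T then {w | 0 < cr x y w}
        else {w | cr x y w < 0}) = ∏ l ∈ R, μ (if l ∈ T then {w | 0 < cr x y w}
        else {w | cr x y w < 0}) := by
      rw [Finset.prod_subtype R (p := fun l => ¬ (l = i ∨ l = j)) hRm]
    rw [h2]
    have h3 : R = T ∪ (R \ T) := by
      rw [union_sdiff_of_subset hT'.1]
    rw [h3, prod_union disjoint_sdiff]
    have h4 : ∏ l ∈ T, μ (if l ∈ T then {w | 0 < cr x y w} else {w | cr x y w < 0}) =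
        μ {w | 0 < cr x y w} ^ m := by
      rw [Finset.prod_congr rfl (g := fun _ => μ {w | 0 < cr x y w}) (fun l hl => by rw [if_pos hl]),
        Finset.prod_const, hT'.2]
    have h5 : ∏ l ∈ R \ T, μ (if l ∈ T then {w | 0 < cr x y w} else {w | cr x y w < 0}) =
        μ {w | cr x y w < 0} ^ m := by
      have h6 : #(R \ T) = m := by rw [card_sdiff_of_subset hT'.1, hRc, hT'.2]; omega
      rw [Finset.prod_congr rfl (g := fun _ => μ {w | cr x y w < 0})
        (fun l hl => by rw [if_neg (mem_sdiff.mp hl).2]), Finset.prod_const, h6]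
    rw [h4, h5, ← mul_pow, ENNReal.ofReal_pow hθ0]
    refine pow_le_pow_left₀ (by positivity) ?_ m
    rw [← ofReal_measureReal (μ := μ) (s := {w | 0 < cr x y w}),
      ← ofReal_measureReal (μ := μ) (s := {w | cr x y w < 0}),
      ← ENNReal.ofReal_mul (measureReal_nonneg)]
    exact ENNReal.ofReal_le_ofReal h1
  have hsum : ENNReal.ofReal (((2 * m).choose m : ℝ) * θ ^ m) * (μ A * μ B) ≤
      ν {X | X i ∈ A ∧ X j ∈ B ∧ HP X i j} := by
    calc ENNReal.ofReal (((2 * m).choose m : ℝ) * θ ^ m) * (μ A * μ B)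
        = ∑ _T ∈ powersetCard m R, ENNReal.ofReal (θ ^ m) * (μ A * μ B) := by
          rw [Finset.sum_const, card_powersetCard, hRc, nsmul_eq_mul,
            ENNReal.ofReal_mul (by positivity), ENNReal.ofReal_natCast, mul_assoc]
      _ ≤ ∑ T ∈ powersetCard m R, ν (F T) := Finset.sum_le_sum hθT
      _ = ν (⋃ T ∈ powersetCard m R, F T) := by
          rw [measure_biUnion_finset hdisj (fun T _ => hFm T)]
      _ ≤ _ := measure_mono hsub
  have h7 := ENNReal.toReal_mono (measure_ne_top ν _) hsum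
  rw [ENNReal.toReal_mul, ENNReal.toReal_ofReal (by positivity), ENNReal.toReal_mul] at h7
  simp only [Measure.real]
  linarith

end Pool.Agent.L7h42.RH
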