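import Pool.Agent.TH124.KE.Chain
import Pool.Agent.Y429.HalvFew

/-!
# Project RH: the expected number of halving lines of random points (MP_e17eac_co)

Exact statements of the parts. Everything is elementary; routes are given with each statement.
-/

set_option autoImplicit false

namespace Pool.Agent.L7h42.RH

open Finset MeasureTheory Pool.Agent.TH124.KE
open Pool.Agent.W296.HL (cr Gen Hv IsBisector GeneralPosition Line)

open scoped Classical in
/-- [TWO] crossings between the edges with `k` points below and the edges with `l` points below: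
`Pool/Agent/TH124/KE/Chain.lean` proves this for `k = l` (`crs_le`); the same proof works for
different levels: the chain `Fwd` of the second edge `f` (to the left) is taken at level `l`, the
chain of the first edge `e` (to the right) at level `k`; the clause `k + 1 ≤ bel ..` of `Br` can be
dropped (only `u, v ∈ P` and `u.1 < v.1` matter for the count). -/
def S_TWO : Prop := ∀ (P : Finset (ℝ × ℝ)), GP P → ∀ k l : ℕ,
  #{x ∈ (kes P k) ×ˢ (kes P l) | ss x.2 < ss x.1 ∧ Cr x.1 x.2} ≤ #P ^ 2

/-- [WIN] edges at `B` consecutive levels. From [TWO] (as a hypothesis): the union `F` of the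
`kes P j` (pairwise disjoint) has at most `B ^ 2 * #P ^ 2` crossings `crs F`; `crossing_lemma`
with `s = ⌈(B ^ 2 * #P) ^ (1/3)⌉`. -/
def S_WIN : Prop := ∀ (P : Finset (ℝ × ℝ)), GP P → ∀ a B : ℕ, 1 ≤ B →
  (∑ j ∈ Ico a (a + B), (#(kes P j) : ℝ)) ≤ 8 * ((#P : ℝ) ^ 2 * B) ^ (2 / 3 : ℝ)

/-- [AVG] double counting: for an edge `(p, q)` of `P` with `j` points below, the sets `S` of
`2 m + 2` points of `P` for which it is an edge with `m` points below are obtained by choosing `m`
of the `j` points below and `m` of the `#P - 2 - j` points above. -/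
def S_AVG : Prop := ∀ (P : Finset (ℝ × ℝ)), GP P → ∀ m : ℕ,
  ∑ S ∈ powersetCard (2 * m + 2) P, #(kes S m) ≤
    ∑ j ∈ range (#P - 1), #(kes P j) * (j.choose m * (#P - 2 - j).choose m)

/-- [UNI] layer cake summation against a unimodal weight: `w j = ∑ t ∈ range W, [t < w j]`; the set
`{j < L | t < w j}` is an interval with `λ_t` elements, covered by at most `(λ_t + B - 1) / B`
blocks of length `B`, and `∑_t λ_t = ∑ w`. -/
def S_UNI : Prop := ∀ (e w : ℕ → ℕ) (L B W : ℕ) (K : ℝ), 1 ≤ B →
  (∀ a, (∑ j ∈ Ico a (a + B), (e j : ℝ)) ≤ K) →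
  (∀ i j k, i ≤ j → j ≤ k → k < L → min (w i) (w k) ≤ w j) → (∀ j < L, w j ≤ W) →
  (B : ℝ) * ∑ j ∈ range L, (e j : ℝ) * w j ≤ K * (∑ j ∈ range L, (w j : ℝ) + B * W)

/-- [HYP] the weights of [AVG]: unimodality (the ratio of consecutive weights is
`(j+1)(M-j-m) / ((j+1-m)(M-j))`, at least `1` iff `j + 1 ≤ M - j`), the maximum, and the sum.
For the maximum with `M = 2a`: `C(a,m)^2 * C(2a,a) = C(2a,2m) * C(2m,m) * C(2a-2m,a-m)` and
`4^x / (2 √x) ≤ C(2x,x) ≤ 4^x / √(2x+1)`; odd `M = 2a+1` by comparison with `2a+2` or directly. -/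
def S_HYP : Prop := ∀ m M : ℕ, 4 * m + 2 ≤ M →
  (∀ i j k, i ≤ j → j ≤ k → k ≤ M →
    min (i.choose m * (M - i).choose m) (k.choose m * (M - k).choose m) ≤
      j.choose m * (M - j).choose m) ∧
  (∀ j ≤ M, ((j.choose m * (M - j).choose m : ℕ) : ℝ) * Real.sqrt (m + 1) ≤
    8 * (M.choose (2 * m) : ℝ)) ∧
  ∑ j ∈ range (M + 1), j.choose m * (M - j).choose m = (M + 1).choose (2 * m + 1)

/-- the number of bisectors of the set of values of `X` -/
noncomputable def bis {n : ℕ} (X : Fin n → ℝ × ℝ) : ℕ := {L | IsBisector (univ.image X) L}.ncard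

/-- a probability distribution on the plane for which every line is a null set -/
def Diffuse (μ : Measure (ℝ × ℝ)) : Prop :=
  IsProbabilityMeasure μ ∧ ∀ a b c : ℝ, (a ≠ 0 ∨ b ≠ 0) → μ (Line a b c) = 0

/-- the pair `i, j` is halving for `X` -/
def HP {n : ℕ} (X : Fin n → ℝ × ℝ) (i j : Fin n) : Prop :=
  #{l | 0 < cr (X i) (X j) (X l)} = n / 2 - 1 ∧ #{l | cr (X i) (X j) (X l) < 0} = n / 2 - 1

open scoped Classical in
/-- the number of halving pairs -/
noncomputable def hp {n : ℕ} (X : Fin n → ℝ × ℝ) : ℕ :=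
  #{z : Fin n × Fin n | z.1 < z.2 ∧ HP X z.1 z.2}

/-- [GPA] independent random points are almost surely distinct and in general position (union
bound over triples; Fubini over the third point). -/
def S_GPA : Prop := ∀ μ : Measure (ℝ × ℝ), Diffuse μ → ∀ n : ℕ,
  ∀ᵐ X ∂(Measure.pi fun _ : Fin n => μ),
    Function.Injective X ∧ GeneralPosition (univ.image X)

/-- [MEA] measurability of the number of halving pairs, and its meaning. For the second part
compare `Pool/Agent/W296/HL3.lean`: `hv_of_line`, `two_mul_ncard_le`, `mem_HH`, `gen_of_gp`. -/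
def S_MEA : Prop := ∀ n : ℕ,
  Measurable (fun X : Fin n → ℝ × ℝ => hp X) ∧
  ∀ X : Fin n → ℝ × ℝ, Function.Injective X → GeneralPosition (univ.image X) → bis X = hp X

/-- [IID] from finite sets to independent points: `N` independent points, each `n`-subset of them
is distributed as `n` independent points; with [GPA] and [MEA] as hypotheses. -/
def S_IID : Prop := ∀ μ : Measure (ℝ × ℝ), Diffuse μ → ∀ (n N : ℕ) (C : ℝ), n ≤ N →
  (∀ Q : Finset (ℝ × ℝ), GeneralPosition Q → #Q = N →
    ∑ S ∈ powersetCard n Q, ({L | IsBisector S L}.ncard : ℝ) ≤ C * (N.choose n : ℝ)) →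
  Integrable (fun X => (bis X : ℝ)) (Measure.pi fun _ : Fin n => μ) ∧
    ∫ X, (bis X : ℝ) ∂(Measure.pi fun _ : Fin n => μ) ≤ C

/-- [LOW] a lower bound for the probability that two of the `2 m + 2` points are in given sets and
span a halving line: Fubini over the two points; given their positions `x, y`, for every set `T`
of `m` of the remaining `2 m` indices the probability that exactly the points with index in `T`
are on the positive side of the line `x y` is `(μ {z | 0 < cr x y z} * μ {z | cr x y z < 0}) ^ m`. -/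
def S_LOW : Prop := ∀ μ : Measure (ℝ × ℝ), IsProbabilityMeasure μ → ∀ (m : ℕ)
  (A B : Set (ℝ × ℝ)) (θ : ℝ), MeasurableSet A → MeasurableSet B → 0 ≤ θ →
  (∀ x ∈ A, ∀ y ∈ B, θ ≤ μ.real {z | 0 < cr x y z} * μ.real {z | cr x y z < 0}) →
  ∀ i j : Fin (2 * m + 2), i ≠ j →
    μ.real A * μ.real B * ((2 * m).choose m : ℝ) * θ ^ m ≤
      (Measure.pi fun _ : Fin (2 * m + 2) => μ).real {X | X i ∈ A ∧ X j ∈ B ∧ HP X i j}

/-- [CLU] a cluster measure: the average of the uniform distributions on tiny squares around the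
points of `P`. For small squares no orientation `cr p q r` of distinct points changes, so a line
through a point of the square of `p` and a point of the square of `q` has `#P / 2 - 1` complete
squares on each side if `p q` is a bisector of `P`, hence measure between `1 / 2 - 1 / #P` and
`1 / 2 + 1 / #P` on each side (lines are null sets). -/
def S_CLU : Prop := ∀ P : Finset (ℝ × ℝ), Gen P → Even #P → 2 ≤ #P →
  ∃ (μ : Measure (ℝ × ℝ)) (D : ℝ × ℝ → Set (ℝ × ℝ)), Diffuse μ ∧
    (∀ p ∈ P, MeasurableSet (D p) ∧ μ.real (D p) = 1 / #P) ∧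
    (∀ p ∈ P, ∀ q ∈ P, p ≠ q → Disjoint (D p) (D q)) ∧
    ∀ p ∈ P, ∀ q ∈ P, Hv P p q → ∀ x ∈ D p, ∀ y ∈ D q,
      1 / 4 - 1 / (#P : ℝ) ^ 2 ≤ μ.real {z | 0 < cr x y z} * μ.real {z | cr x y z < 0}

end Pool.Agent.L7h42.RH
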