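import Pool.Agent.L7h42.RH.Stm

/-!
# Crossings between the edges at two levels
-/

set_option autoImplicit false

namespace Pool.Agent.L7h42.RH

open Finset Pool.Agent.TH124.KE

variable {P : Finset (ℝ × ℝ)} {k l : ℕ}

/-- the bridge data of a crossing pair -/
def Br2 (P : Finset (ℝ × ℝ)) (k l : ℕ) (e f : Seg) (u v : ℝ × ℝ) : Prop :=
  u ∈ P ∧ v ∈ P ∧ u.1 < v.1 ∧
  (∃ f', Fwd P l f' f ∧ KE P l f'.1 f'.2 ∧ f'.1 = u ∧ ss f' < sl u v ∧
    ∀ q, KE P l u q → sl u q < sl u v → sl u q ≤ ss f') ∧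
  (∃ e', Fwd P k e e' ∧ KE P k e'.1 e'.2 ∧ e'.2 = v ∧ sl u v < ss e' ∧
    ∀ w, KE P k w v → sl u v < sl w v → ss e' ≤ sl w v)

theorem exists_bridge2 (hP : GP P) {e f : Seg} (he : KE P k e.1 e.2) (hf : KE P l f.1 f.2)
    (hs : ss f < ss e) (hc : Cr e f) : ∃ u v, Br2 P k l e f u v := by
  classical
  obtain ⟨-, x₀, hx1, hx2, hx3, hx4, hx5⟩ := hc
  set U := P.filter (fun u => ∃ f', Fwd P l f' f ∧ f'.1 = u) with hU
  set W := P.filter (fun v => ∃ e', Fwd P k e e' ∧ e'.2 = v) with hW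
  have hfU : f.1 ∈ U := mem_filter.mpr ⟨hf.1, f, Relation.ReflTransGen.refl, rfl⟩
  have heW : e.2 ∈ W := mem_filter.mpr ⟨he.2.1, e, Relation.ReflTransGen.refl, rfl⟩
  have hUx : ∀ u ∈ U, u.1 < x₀ := by
    intro u hu
    obtain ⟨-, f', h1, h2⟩ := mem_filter.mp hu
    have hf' := fwd_ke' h1 hf
    rcases fwd_or h1 with h3 | h3
    · rw [← h2, h3]; exact hx3
    · rw [← h2]; linarith [hf'.2.2.1]
  have hWx : ∀ v ∈ W, x₀ < v.1 := by
    intro v hv
    obtain ⟨-, e', h1, h2⟩ := mem_filter.mp hv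
    have he' := fwd_ke h1 he
    rcases fwd_or h1 with h3 | h3
    · rw [← h2, ← h3]; exact hx2
    · rw [← h2]; linarith [he'.2.2.1]
  obtain ⟨⟨u, v⟩, huv, hmax⟩ := Finset.exists_max_image (U ×ˢ W)
    (fun x => x.1.2 + sl x.1 x.2 * (x₀ - x.1.1)) ⟨(f.1, e.2), mem_product.mpr ⟨hfU, heW⟩⟩
  rw [mem_product] at huv
  obtain ⟨hu, hv⟩ := huv
  dsimp only at hu hv
  have huP : u ∈ P := (mem_filter.mp hu).1
  have hvP : v ∈ P := (mem_filter.mp hv).1
  have hux := hUx u hu
  have hvx := hWx v hv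
  have huv : u.1 < v.1 := hux.trans hvx
  set σ := sl u v with hσ
  have hhuv : hh σ v = hh σ u := hh_sl huv.ne
  -- all chain points are weakly below the bridge
  have hWb : ∀ w ∈ W, hh σ w ≤ hh σ u := by
    intro w hw
    by_contra hcon
    have hwx := hWx w hw
    have huw : u.1 < w.1 := hux.trans hwx
    have h1 : σ < sl u w := by
      rcases lt_trichotomy (sl u w) σ with h | h | h
      · exact absurd ((hh_lt_right huw σ).mpr h).le hcon
      · exact absurd ((hh_eq huw.ne σ).mpr h).le hcon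
      · exact h
    have h2 := hmax (u, w) (mem_product.mpr ⟨hu, hw⟩)
    dsimp only at h2
    nlinarith
  have hUb : ∀ w ∈ U, hh σ w ≤ hh σ u := by
    intro w hw
    by_contra hcon
    rw [← hhuv] at hcon
    have hwx := hUx w hw
    have hwv : w.1 < v.1 := hwx.trans hvx
    have h1 : sl v w < σ := by
      rcases lt_trichotomy (sl v w) σ with h | h | h
      · exact h
      · exact absurd ((hh_eq hwv.ne' σ).mpr h).le hcon
      · exact absurd ((hh_lt_left hwv σ).mpr h).le hcon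
    have h2 := hmax (w, v) (mem_product.mpr ⟨hw, hv⟩)
    dsimp only at h2
    have h3 : w.2 + sl w v * (x₀ - w.1) = v.2 + sl w v * (x₀ - v.1) := by
      have := hh_sl (p := w) (q := v) hwv.ne
      unfold hh at this
      linarith
    have h4 : u.2 + sl u v * (x₀ - u.1) = v.2 + sl u v * (x₀ - v.1) := by
      have := hh_sl (p := u) (q := v) huv.ne
      unfold hh at this
      linarith
    rw [h3, h4, sl_comm w v, ← hσ] at h2
    nlinarith
  -- the bridge passes above the crossing point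
  have hz : ev e x₀ - σ * x₀ < hh σ u := by
    have h2 := hmax (f.1, e.2) (mem_product.mpr ⟨hfU, heW⟩)
    dsimp only at h2
    have hfe : f.1.1 < e.2.1 := hx3.trans hx2
    have a1 : e.2.2 = ev e x₀ + ss e * (e.2.1 - x₀) := by
      have := ev_sub e e.2.1 x₀
      rw [ev_right he.2.2.1] at this
      linarith
    have a2 : f.1.2 = ev e x₀ - ss f * (x₀ - f.1.1) := by
      have := ev_sub f x₀ f.1.1
      rw [ev_left] at this
      linarith
    have a3 : sl f.1 e.2 * (e.2.1 - f.1.1) = e.2.2 - f.1.2 := by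
      unfold sl
      rw [div_mul_cancel₀]
      linarith
    have a4 : (sl f.1 e.2 - ss f) * (e.2.1 - f.1.1) = (ss e - ss f) * (e.2.1 - x₀) := by
      rw [sub_mul, a3, a1, a2]; ring
    have a5 : 0 < (ss e - ss f) * (e.2.1 - x₀) := mul_pos (by linarith) (by linarith)
    have a6 : 0 < sl f.1 e.2 - ss f := by
      by_contra hcon
      have : (sl f.1 e.2 - ss f) * (e.2.1 - f.1.1) ≤ 0 :=
        mul_nonpos_of_nonpos_of_nonneg (not_lt.mp hcon) (by linarith)
      linarith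
    have a7 : 0 < (sl f.1 e.2 - ss f) * (x₀ - f.1.1) := mul_pos a6 (by linarith)
    have a8 : ev e x₀ < f.1.2 + sl f.1 e.2 * (x₀ - f.1.1) := by rw [a2]; linarith
    unfold hh
    rw [hσ]
    linarith
  have hfs : ss f < σ := by
    by_contra hcon
    push Not at hcon
    obtain ⟨-, f', h1, h2⟩ := mem_filter.mp hu
    have hf' := fwd_ke' h1 hf
    have h3 := fwd_inc' h1 hf'.2.2.1 hcon
    rw [h2] at h3
    have h4 := ev_sub f x₀ f.1.1
    rw [ev_left, ← hx5] at h4
    have h5 : 0 ≤ (ss f - σ) * (x₀ - f.1.1) := mul_nonneg (by linarith) (by linarith)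
    unfold hh at h3 hz
    nlinarith
  have hes : σ < ss e := by
    by_contra hcon
    push Not at hcon
    obtain ⟨-, e', h1, h2⟩ := mem_filter.mp hv
    have he' := fwd_ke h1 he
    have h3 := fwd_dec' h1 he'.2.2.1 hcon
    rw [h2, hhuv] at h3
    have h4 := ev_sub e e.2.1 x₀
    rw [ev_right he.2.2.1] at h4
    have h5 : 0 ≤ (σ - ss e) * (e.2.1 - x₀) := mul_nonneg (by linarith) (by linarith)
    unfold hh at h3 hz
    nlinarith
  obtain ⟨-, f', hf'1, hf'2⟩ := mem_filter.mp hu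
  obtain ⟨-, e', he'1, he'2⟩ := mem_filter.mp hv
  have hf' := fwd_ke' hf'1 hf
  have he' := fwd_ke he'1 he
  have hf's : ss f' < σ := by
    rcases Relation.ReflTransGen.cases_head hf'1 with h | ⟨f'', h1, h2⟩
    · rw [h]; exact hfs
    · have h3 : f'.2 ∈ U := mem_filter.mpr ⟨hf'.2.1, f'', h2, h1.2.2.1⟩
      have h4 := hUb _ h3
      have h5 := hUx _ h3
      have hlt : u.1 < f'.2.1 := by rw [← hf'2]; exact hf'.2.2.1
      have h6 : ss f' = sl u f'.2 := by rw [← hf'2]; rfl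
      rw [h6]
      rcases lt_trichotomy (sl u f'.2) σ with h | h | h
      · exact h
      · exfalso
        have n1 : u ≠ f'.2 := by intro hc; rw [← hc] at hlt; exact lt_irrefl _ hlt
        have n2 : u ≠ v := by intro hc; rw [hc] at huv; exact lt_irrefl _ huv
        have n3 : f'.2 ≠ v := by intro hc; rw [hc] at h5; linarith
        exact hP.col u huP f'.2 hf'.2.1 v hvP n1 n2 n3 h
      · exfalso
        rcases lt_or_eq_of_le h4 with h4 | h4
        · have := (hh_lt_right hlt σ).mp h4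
          linarith
        · have := (hh_eq hlt.ne σ).mp h4
          linarith
  have he's : σ < ss e' := by
    rcases Relation.ReflTransGen.cases_tail he'1 with h | ⟨e'', h1, h2⟩
    · rw [h]; exact hes
    · have h3 : e'.1 ∈ W := mem_filter.mpr ⟨he'.1, e'', h1, h2.2.2.1.symm⟩
      have h4 := hWb _ h3
      have h5 := hWx _ h3
      have hlt : e'.1.1 < v.1 := by rw [← he'2]; exact he'.2.2.1
      have h6 : ss e' = sl v e'.1 := by rw [← he'2, sl_comm]; rfl
      rw [h6]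
      rw [← hhuv] at h4
      rcases lt_trichotomy (sl v e'.1) σ with h | h | h
      · exfalso
        rcases lt_or_eq_of_le h4 with h4 | h4
        · have := (hh_lt_left hlt σ).mp h4
          linarith
        · have := (hh_eq hlt.ne' σ).mp h4
          linarith
      · exfalso
        have n1 : v ≠ e'.1 := by intro hc; rw [← hc] at hlt; exact lt_irrefl _ hlt
        have n2 : v ≠ u := by intro hc; rw [hc] at huv; exact lt_irrefl _ huv
        have n3 : e'.1 ≠ u := by intro hc; rw [hc] at h5; linarith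
        apply hP.col v hvP e'.1 he'.1 u huP n1 n2 n3
        rw [h, sl_comm v u]
      · exact h
  -- no edge to the left of `u` between the slopes of `f'` and the bridge
  have hnoL : ∀ w, KE P l w u → ¬ (ss f' < sl w u ∧ sl w u < σ) := by
    rintro w hw ⟨h1, h2⟩
    rw [← hf'2] at hw h1 h2
    obtain ⟨w₀, h3, h4⟩ := exists_pred hP hf' hw h1
    have h5 : w₀ ∈ U := mem_filter.mpr ⟨h3.1.1, (w₀, f'.1), Relation.ReflTransGen.head h3 hf'1, rfl⟩
    have h6 := hUb _ h5
    have hlt : w₀.1 < u.1 := by rw [← hf'2]; exact h3.1.2.2.1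
    rcases lt_or_eq_of_le h6 with h6 | h6
    · have := (hh_lt_left hlt σ).mp h6
      rw [sl_comm, ← hf'2] at this
      linarith
    · have := (hh_eq hlt.ne' σ).mp h6
      rw [sl_comm, ← hf'2] at this
      linarith
  have hnoR : ∀ q, KE P k v q → ¬ (σ < sl v q ∧ sl v q < ss e') := by
    rintro q hq ⟨h1, h2⟩
    rw [← he'2] at hq h1 h2
    obtain ⟨q₀, h3, h4⟩ := exists_succ hP he' hq h2
    have h5 : q₀ ∈ W := mem_filter.mpr ⟨h3.2.1.2.1, (e'.2, q₀), Relation.ReflTransGen.tail he'1 h3, rfl⟩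
    have h6 := hWb _ h5
    rw [← hhuv] at h6
    have hlt : v.1 < q₀.1 := by rw [← he'2]; exact h3.2.1.2.2.1
    rcases lt_or_eq_of_le h6 with h6 | h6
    · have := (hh_lt_right hlt σ).mp h6
      rw [← he'2] at this
      linarith
    · have := (hh_eq hlt.ne σ).mp h6
      rw [← he'2] at this
      linarith
  refine ⟨u, v, huP, hvP, huv, ⟨f', hf'1, hf', hf'2, hf's, ?_⟩, ⟨e', he'1, he', he'2, he's, ?_⟩⟩
  · intro q hq hq1
    by_contra hcon
    push Not at hcon
    have h1 : KE P l u f'.2 := by rw [← hf'2]; exact hf'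
    have h2 : sl u f'.2 = ss f' := by rw [← hf'2]; rfl
    rw [← h2] at hcon
    obtain ⟨w, hw, h3, h4⟩ := altR hP h1 hq hcon
    rw [h2] at h3
    exact hnoL w hw ⟨h3, h4.trans hq1⟩
  · intro w hw hw1
    by_contra hcon
    push Not at hcon
    have h1 : KE P k e'.1 v := by rw [← he'2]; exact he'
    have h2 : sl e'.1 v = ss e' := by rw [← he'2]; rfl
    rw [← h2] at hcon
    obtain ⟨q, hq, h3, h4⟩ := altL hP hw h1 hcon
    rw [h2] at h4
    exact hnoR q hq ⟨hw1.trans h3, h4⟩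

/-- a bridge belongs to at most one crossing pair -/
theorem bridge_unique2 (hP : GP P) {e f g h : Seg} (hef : Cr e f) (hgh : Cr g h) {u v : ℝ × ℝ}
    (h1 : Br2 P k l e f u v) (h2 : Br2 P k l g h u v) : e = g ∧ f = h := by
  obtain ⟨hu, hv, huv, ⟨f₁, a1, a2, a3, a4, a5⟩, ⟨e₁, b1, b2, b3, b4, b5⟩⟩ := h1
  obtain ⟨-, -, -, ⟨f₂, c1, c2, c3, c4, c5⟩, ⟨e₂, d1, d2, d3, d4, d5⟩⟩ := h2
  have hf12 : f₁ = f₂ := by
    refine seg_ext hP a2.1 a2.2.1 a2.2.2.1 c2.2.1 c2.2.2.1 (a3.trans c3.symm) ?_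
    have x1 : KE P l u f₁.2 := by rw [← a3]; exact a2
    have x2 : KE P l u f₂.2 := by rw [← c3]; exact c2
    have y1 : sl u f₁.2 = ss f₁ := by rw [← a3]; rfl
    have y2 : sl u f₂.2 = ss f₂ := by rw [← c3]; rfl
    have z1 := c5 _ x1 (by rw [y1]; exact a4)
    have z2 := a5 _ x2 (by rw [y2]; exact c4)
    rw [y1] at z1
    rw [y2] at z2
    exact le_antisymm z1 z2
  have he12 : e₁ = e₂ := by
    refine seg_ext' hP b2.1 b2.2.1 b2.2.2.1 d2.1 d2.2.2.1 (b3.trans d3.symm) ?_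
    have x1 : KE P k e₁.1 v := by rw [← b3]; exact b2
    have x2 : KE P k e₂.1 v := by rw [← d3]; exact d2
    have y1 : sl e₁.1 v = ss e₁ := by rw [← b3]; rfl
    have y2 : sl e₂.1 v = ss e₂ := by rw [← d3]; rfl
    have z1 := d5 _ x1 (by rw [y1]; exact b4)
    have z2 := b5 _ x2 (by rw [y2]; exact d4)
    rw [y1] at z1
    rw [y2] at z2
    exact le_antisymm z2 z1
  rw [← hf12] at c1
  rw [← he12] at d1
  obtain ⟨-, x, p1, p2, p3, p4, p5⟩ := hef
  obtain ⟨-, x', q1, q2, q3, q4, q5⟩ := hgh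
  obtain ⟨r1, r2, r3⟩ := cmpF hP a1 c1 a2 a4 p3 p4 q3 q4
  obtain ⟨s1, s2, s3⟩ := cmpE hP b1 d1 b2 b4 p1 p2 q1 q2
  rcases lt_trichotomy x x' with h | h | h
  · have t1 := r1 h
    have t2 := s1 h
    rw [p5, q5] at t2
    linarith
  · exact ⟨s3 h, r3 h⟩
  · have t1 := r2 h
    have t2 := s2 h
    rw [p5, q5] at t2
    linarith


theorem s_TWO : S_TWO := by
  classical
  intro P hP k l
  have hmem : ∀ x ∈ ((kes P k) ×ˢ (kes P l)).filter (fun x => ss x.2 < ss x.1 ∧ Cr x.1 x.2),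
      KE P k x.1.1 x.1.2 ∧ KE P l x.2.1 x.2.2 ∧ ss x.2 < ss x.1 ∧ Cr x.1 x.2 := by
    intro x hx
    rw [mem_filter, mem_product, mem_kes, mem_kes] at hx
    exact ⟨hx.1.1, hx.1.2, hx.2.1, hx.2.2⟩
  have hex : ∀ x ∈ ((kes P k) ×ˢ (kes P l)).filter (fun x => ss x.2 < ss x.1 ∧ Cr x.1 x.2),
      ∃ y : Seg, Br2 P k l x.1 x.2 y.1 y.2 := by
    intro x hx
    obtain ⟨h1, h2, h3, h4⟩ := hmem x hx
    obtain ⟨u, v, h⟩ := exists_bridge2 hP h1 h2 h3 h4
    exact ⟨(u, v), h⟩
  choose! φ hφ using hex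
  have hc : #(P ×ˢ P) = #P ^ 2 := by rw [card_product]; ring
  rw [← hc]
  refine Finset.card_le_card_of_injOn φ (fun x hx => ?_) ?_
  · have h := hφ x (mem_coe.mp hx)
    rw [mem_coe, mem_product]
    exact ⟨h.1, h.2.1⟩
  · intro x hx y hy hxy
    have hx' : x ∈ ((kes P k) ×ˢ (kes P l)).filter (fun x => ss x.2 < ss x.1 ∧ Cr x.1 x.2) := mem_coe.mp hx
    have hy' : y ∈ ((kes P k) ×ˢ (kes P l)).filter (fun x => ss x.2 < ss x.1 ∧ Cr x.1 x.2) := mem_coe.mp hy
    have h1 := hφ x hx'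
    have h2 := hφ y hy'
    rw [hxy] at h1
    obtain ⟨a, b⟩ := bridge_unique2 hP (hmem x hx').2.2.2 (hmem y hy').2.2.2 h1 h2
    exact Prod.ext a b

end Pool.Agent.L7h42.RH
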