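import Pool.Agent.L7h42.RH.Stm

/-!
# Summation against a unimodal weight
-/

set_option autoImplicit false

namespace Pool.Agent.L7h42.RH

open Finset

lemma block_sum {e : ℕ → ℕ} {B : ℕ} {K : ℝ}
    (hK : ∀ a, (∑ j ∈ Ico a (a + B), (e j : ℝ)) ≤ K) (q a : ℕ) :
    (∑ j ∈ Ico a (a + q * B), (e j : ℝ)) ≤ q * K := by
  induction q with
  | zero => simp
  | succ q ih =>
    have h : a + (q + 1) * B = (a + q * B) + B := by ring
    rw [h, ← Finset.sum_Ico_consecutive _ (show a ≤ a + q * B by omega)
      (show a + q * B ≤ a + q * B + B by omega)]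
    have := hK (a + q * B)
    push_cast
    linarith

theorem s_UNI : S_UNI := by
  classical
  intro e w L B W K hB hK hw hW
  have hK0 : 0 ≤ K := le_trans (Finset.sum_nonneg fun _ _ => by positivity) (hK 0)
  have hBr : (0 : ℝ) < B := by exact_mod_cast hB
  set A : ℕ → Finset ℕ := fun t => (range L).filter (fun j => t < w j) with hA
  have h1 : ∀ t, (B : ℝ) * ∑ j ∈ A t, (e j : ℝ) ≤ K * (#(A t) + B) := by
    intro t
    rcases (A t).eq_empty_or_nonempty with h0 | hne
    · rw [h0]; simp; positivity
    · set a := (A t).min' hne with ha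
      set b := (A t).max' hne with hb
      have hmem : ∀ j, j ∈ A t ↔ j < L ∧ t < w j := by
        intro j; rw [hA]; simp only [mem_filter, mem_range]
      have ha' : a < L ∧ t < w a := (hmem a).mp ((A t).min'_mem hne)
      have hb' : b < L ∧ t < w b := (hmem b).mp ((A t).max'_mem hne)
      have hAI : A t = Icc a b := by
        ext j
        rw [mem_Icc]
        constructor
        · intro hj
          exact ⟨min'_le _ _ hj, le_max' _ _ hj⟩
        · rintro ⟨hj1, hj2⟩
          have hbL : b < L := hb'.1
          have h2 := hw a j b hj1 hj2 hbL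
          rw [hmem]
          refine ⟨by omega, lt_of_lt_of_le ?_ h2⟩
          exact lt_min ha'.2 hb'.2
      have hab : a ≤ b := min'_le _ _ ((A t).max'_mem hne)
      have hcard : #(A t) = b + 1 - a := by rw [hAI, Nat.card_Icc]
      set q := (#(A t) + B - 1) / B with hq
      have hq1 : q * B ≤ #(A t) + B - 1 := Nat.div_mul_le_self _ _
      have hq2 : #(A t) ≤ q * B := by
        have h3 := Nat.lt_div_mul_add (a := #(A t) + B - 1) (b := B) (by omega)
        rw [← hq] at h3
        omega
      have hsub : A t ⊆ Ico a (a + q * B) := by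
        rw [hAI]
        intro j hj
        rw [mem_Icc] at hj
        rw [mem_Ico]
        omega
      have h4 : (∑ j ∈ A t, (e j : ℝ)) ≤ q * K :=
        (Finset.sum_le_sum_of_subset_of_nonneg hsub (fun _ _ _ => by positivity)).trans
          (block_sum hK q a)
      have h5 : (q : ℝ) * B ≤ #(A t) + B := by
        have : q * B ≤ #(A t) + B := by omega
        exact_mod_cast this
      calc (B : ℝ) * ∑ j ∈ A t, (e j : ℝ) ≤ B * (q * K) := by gcongr
        _ = K * (q * B) := by ring
        _ ≤ K * (#(A t) + B) := by gcongr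
  have h2 : (∑ j ∈ range L, (e j : ℝ) * w j) = ∑ t ∈ range W, ∑ j ∈ A t, (e j : ℝ) := by
    have h3 : ∀ j ∈ range L, (e j : ℝ) * w j = ∑ t ∈ range W, if t < w j then (e j : ℝ) else 0 := by
      intro j hj
      rw [← Finset.sum_filter, Finset.sum_const, nsmul_eq_mul, mul_comm]
      congr 2
      have : (range W).filter (fun t => t < w j) = range (w j) := by
        ext t
        simp only [mem_filter, mem_range]
        have := hW j (mem_range.mp hj)
        omega
      rw [this, card_range]
    rw [Finset.sum_congr rfl h3, Finset.sum_comm]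
    refine Finset.sum_congr rfl fun t _ => ?_
    rw [hA, Finset.sum_filter]
  have h3 : (∑ j ∈ range L, (w j : ℝ)) = ∑ t ∈ range W, (#(A t) : ℝ) := by
    have h4 : ∀ j ∈ range L, (w j : ℝ) = ∑ t ∈ range W, if t < w j then (1 : ℝ) else 0 := by
      intro j hj
      rw [← Finset.sum_filter, Finset.sum_const, nsmul_eq_mul, mul_one]
      congr 1
      have : (range W).filter (fun t => t < w j) = range (w j) := by
        ext t
        simp only [mem_filter, mem_range]
        have := hW j (mem_range.mp hj)
        omega
      rw [this, card_range]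
    rw [Finset.sum_congr rfl h4, Finset.sum_comm]
    refine Finset.sum_congr rfl fun t _ => ?_
    rw [← Finset.sum_filter, Finset.sum_const, nsmul_eq_mul, mul_one]
  rw [h2, h3, Finset.mul_sum]
  calc ∑ t ∈ range W, (B : ℝ) * ∑ j ∈ A t, (e j : ℝ)
      ≤ ∑ t ∈ range W, K * (#(A t) + B) := Finset.sum_le_sum fun t _ => h1 t
    _ = K * (∑ t ∈ range W, (#(A t) : ℝ) + B * W) := by
      rw [← Finset.mul_sum, Finset.sum_add_distrib]
      simp
      ring_nf
      simp

end Pool.Agent.L7h42.RH
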