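import Pool.Agent.L7h42.RH.Two

/-!
# Edges at consecutive levels
-/

set_option autoImplicit false

namespace Pool.Agent.L7h42.RH

open Finset Pool.Agent.TH124.KE

lemma kes_disj (P : Finset (ℝ × ℝ)) {j j' : ℕ} (h : j ≠ j') : Disjoint (kes P j) (kes P j') := by
  rw [disjoint_left]
  intro e he he'
  rw [mem_kes] at he he'
  exact h (he.2.2.2.symm.trans he'.2.2.2)

theorem s_WIN_of (hT : S_TWO) : S_WIN := by
  classical
  intro P hP a B hB
  set F : Finset Seg := (Ico a (a + B)).biUnion (fun j => kes P j) with hF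
  have hcF : #F = ∑ j ∈ Ico a (a + B), #(kes P j) := by
    rw [hF, card_biUnion]
    intro i _ j _ hij
    exact kes_disj P hij
  have hFm : ∀ e ∈ F, e.1 ∈ P ∧ e.2 ∈ P ∧ e.1.1 < e.2.1 := by
    intro e he
    rw [hF, mem_biUnion] at he
    obtain ⟨j, -, hj⟩ := he
    rw [mem_kes] at hj
    exact ⟨hj.1, hj.2.1, hj.2.2.1⟩
  have hcr : #(crs F) ≤ B ^ 2 * #P ^ 2 := by
    have hsub : crs F ⊆ ((Ico a (a + B)) ×ˢ (Ico a (a + B))).biUnion
        (fun z => ((kes P z.1) ×ˢ (kes P z.2)).filter (fun x => ss x.2 < ss x.1 ∧ Cr x.1 x.2)) := by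
      intro x hx
      unfold crs at hx
      rw [mem_filter, mem_product] at hx
      obtain ⟨⟨h1, h2⟩, h3, h4⟩ := hx
      rw [hF, mem_biUnion] at h1 h2
      obtain ⟨i, hi, hi2⟩ := h1
      obtain ⟨j, hj, hj2⟩ := h2
      rw [mem_biUnion]
      refine ⟨(i, j), mem_product.mpr ⟨hi, hj⟩, ?_⟩
      rw [mem_filter, mem_product]
      exact ⟨⟨hi2, hj2⟩, h3, h4⟩
    refine (card_le_card hsub).trans (card_biUnion_le.trans ?_)
    refine (Finset.sum_le_card_nsmul _ _ (#P ^ 2) (fun z _ => ?_)).trans ?_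
    · have := hT P hP z.1 z.2
      convert this using 2
    · rw [card_product, Nat.card_Ico, smul_eq_mul]
      have : a + B - a = B := by omega
      rw [this]
      exact le_of_eq (by ring)
  rcases P.eq_empty_or_nonempty with rfl | hne
  · have : F = ∅ := by
      rw [eq_empty_iff_forall_notMem]
      intro e he
      exact notMem_empty _ (hFm e he).1
    rw [this, card_empty] at hcF
    have h0 : (∑ j ∈ Ico a (a + B), (#(kes (∅ : Finset (ℝ × ℝ)) j) : ℝ)) = 0 := by
      exact_mod_cast hcF.symm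
    rw [h0]; positivity
  · have hN1 : 1 ≤ #P := hne.card_pos
    obtain ⟨N, hN⟩ : ∃ N, N = #P := ⟨_, rfl⟩
    rw [← hN] at hcr hN1
    have hN0 : (0 : ℝ) < N := by exact_mod_cast hN1
    have hB0 : (0 : ℝ) < B := by exact_mod_cast hB
    set x : ℝ := ((B : ℝ) ^ 2 * N) ^ (1 / 3 : ℝ) with hx
    have hx0 : 0 < x := by positivity
    have hx1 : 1 ≤ x := by
      apply Real.one_le_rpow _ (by norm_num)
      have h1 : (1 : ℝ) ≤ N := by exact_mod_cast hN1
      have h2 : (1 : ℝ) ≤ B := by exact_mod_cast hB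
      nlinarith
    have hx3 : x ^ 3 = (B : ℝ) ^ 2 * N := by
      rw [hx, ← Real.rpow_natCast, ← Real.rpow_mul (by positivity)]
      norm_num
    set s : ℕ := ⌈x⌉₊ with hs
    have hs1 : x ≤ s := Nat.le_ceil _
    have hs2 : (s : ℝ) ≤ 2 * x := by
      have := Nat.ceil_lt_add_one hx0.le
      linarith
    have hs0 : 0 < s := Nat.ceil_pos.mpr hx0
    have hcl := crossing_lemma hP hFm s hs0
    rw [← hN] at hcl
    have hcl' : (s : ℝ) ^ 2 * #F ≤ 3 * (s : ℝ) ^ 3 * N + (B : ℝ) ^ 2 * (N : ℝ) ^ 2 := by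
      have : s ^ 2 * #F ≤ 3 * s ^ 3 * N + B ^ 2 * N ^ 2 := hcl.trans (by omega)
      exact_mod_cast this
    have hs0' : (0 : ℝ) < s := by exact_mod_cast hs0
    have key : (#F : ℝ) ≤ 7 * (x * N) := by
      have h1 : (s : ℝ) ^ 2 * #F ≤ (s : ℝ) ^ 2 * (7 * (x * N)) := by
        refine hcl'.trans ?_
        have h2 : (B : ℝ) ^ 2 * (N : ℝ) ^ 2 = x ^ 3 * N := by rw [hx3]; ring
        rw [h2]
        have h3 : x ^ 3 * N ≤ (s : ℝ) ^ 2 * (x * N) := by
          have : x ^ 3 * (N : ℝ) = x ^ 2 * (x * N) := by ring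
          rw [this]; gcongr
        have h4 : 3 * (s : ℝ) ^ 3 * N ≤ (s : ℝ) ^ 2 * (6 * (x * N)) := by
          have : 3 * (s : ℝ) ^ 3 * N = (s : ℝ) ^ 2 * (3 * (s * N)) := by ring
          rw [this]
          have : 3 * ((s : ℝ) * N) ≤ 6 * (x * N) := by nlinarith
          gcongr
        linarith
      exact le_of_mul_le_mul_left h1 (by positivity)
    have hfin : x * N = ((N : ℝ) ^ 2 * B) ^ (2 / 3 : ℝ) := by
      rw [hx, Real.mul_rpow (by positivity) hN0.le, Real.mul_rpow (by positivity) hB0.le,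
        ← Real.rpow_natCast, ← Real.rpow_natCast, ← Real.rpow_mul hB0.le, ← Real.rpow_mul hN0.le,
        mul_assoc, ← Real.rpow_add_one' hN0.le (by norm_num)]
      rw [mul_comm]
      norm_num
    have hsum : (∑ j ∈ Ico a (a + B), (#(kes P j) : ℝ)) = #F := by
      rw [hcF]; push_cast; rfl
    rw [hsum, ← hN, ← hfin]
    have : 0 ≤ x * N := by positivity
    linarith

theorem s_WIN : S_WIN := s_WIN_of s_TWO

end Pool.Agent.L7h42.RH
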